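import Mathlib
import Pool.Agent.H476R2.PL.Trig

/-! A Bernstein inequality (with a non-optimal constant) for polynomials on an interval. -/

open Set Topology Filter
open scoped ENNReal NNReal

namespace Pool.Agent.Q62.HN

open Pool.Agent.H476R2.PL

lemma b_le {m k : ℕ} (hk : 0 < k) (hk2 : k < 2 * m) :
    b m k ≤ (m:ℝ) ^ 2 / 2 * (((k:ℝ) ^ 2)⁻¹ + (((2 * m - k : ℕ) : ℝ) ^ 2)⁻¹) := by
  have hm : (0:ℝ) < m := by
    have : 0 < m := by omega
    exact_mod_cast this
  have aux : ∀ j : ℕ, 0 < j → j ≤ m → b m j ≤ (m:ℝ) ^ 2 / 2 * ((j:ℝ) ^ 2)⁻¹ := by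
    intro j hj hjm
    have hj' : (0:ℝ) < j := by exact_mod_cast hj
    have hjm' : (j:ℝ) ≤ m := by exact_mod_cast hjm
    have h1 : (j:ℝ) / m ≤ Real.sin (j * (Real.pi / (2 * m))) := by
      have h2 := Real.mul_le_sin (x := j * (Real.pi / (2 * m))) (by positivity) (by
        have : (j:ℝ) * (Real.pi / (2 * m)) = (j / m) * (Real.pi / 2) := by field_simp
        rw [this]
        have h3 : (j:ℝ) / m ≤ 1 := by rw [div_le_one hm]; exact hjm'
        nlinarith [Real.pi_pos])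
      have h4 : 2 / Real.pi * (j * (Real.pi / (2 * m))) = (j:ℝ) / m := by
        have := Real.pi_pos
        field_simp
      rwa [h4] at h2
    have h5 : 0 < (j:ℝ) / m := by positivity
    have h6 : ((j:ℝ) / m) ^ 2 ≤ Real.sin (j * (Real.pi / (2 * m))) ^ 2 :=
      pow_le_pow_left₀ h5.le h1 2
    unfold b
    calc 1 / (2 * Real.sin (j * (Real.pi / (2 * m))) ^ 2) ≤ 1 / (2 * ((j:ℝ) / m) ^ 2) := by
          apply one_div_le_one_div_of_le (by positivity)
          linarith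
      _ = _ := by field_simp
  rcases le_total k m with h | h
  · have h1 := aux k hk h
    have h2 : (0:ℝ) ≤ (((2 * m - k : ℕ) : ℝ) ^ 2)⁻¹ := by positivity
    have h3 : (0:ℝ) ≤ (m:ℝ) ^ 2 / 2 := by positivity
    nlinarith
  · have h1 := aux (2 * m - k) (by omega) (by omega)
    have h2 : (0:ℝ) ≤ ((k : ℝ) ^ 2)⁻¹ := by positivity
    have h3 : (0:ℝ) ≤ (m:ℝ) ^ 2 / 2 := by positivity
    have h4 : b m (2 * m - k) = b m k := by
      have e1 : ((2 * m - k : ℕ) : ℝ) = 2 * m - k := by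
        rw [Nat.cast_sub (by omega : k ≤ 2 * m)]; push_cast; ring
      unfold b
      rw [e1]
      have : (2 * (m : ℝ) - k) * (Real.pi / (2 * m)) = Real.pi - k * (Real.pi / (2 * m)) := by
        field_simp
      rw [this, Real.sin_pi_sub]
    rw [h4] at h1
    nlinarith

lemma sum_b_le {m : ℕ} : ∑ k ∈ Finset.Ico 1 (2 * m), b m k ≤ 2 * (m:ℝ) ^ 2 := by
  have h0 : ∀ N : ℕ, ∑ k ∈ Finset.Ico 1 N, ((k:ℝ) ^ 2)⁻¹ ≤ 2 := by
    intro N
    have h1 := sum_Ioo_inv_sq_le (α := ℝ) 0 N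
    have h2 : Finset.Ico 1 N = Finset.Ioo 0 N := by
      ext x; simp [Finset.mem_Ico, Finset.mem_Ioo]; omega
    rw [h2]
    simpa using h1
  have h1 : ∑ k ∈ Finset.Ico 1 (2 * m), b m k ≤
      ∑ k ∈ Finset.Ico 1 (2 * m), (m:ℝ) ^ 2 / 2 * (((k:ℝ) ^ 2)⁻¹ + (((2 * m - k : ℕ) : ℝ) ^ 2)⁻¹) := by
    refine Finset.sum_le_sum fun k hk => ?_
    rw [Finset.mem_Ico] at hk
    exact b_le (by omega) hk.2
  have h2 : ∑ k ∈ Finset.Ico 1 (2 * m), (((2 * m - k : ℕ) : ℝ) ^ 2)⁻¹ =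
      ∑ k ∈ Finset.Ico 1 (2 * m), ((k:ℝ) ^ 2)⁻¹ := by
    refine Finset.sum_bij' (fun k _ => 2 * m - k) (fun k _ => 2 * m - k) ?_ ?_ ?_ ?_ ?_
    · intro k hk; rw [Finset.mem_Ico] at hk ⊢; omega
    · intro k hk; rw [Finset.mem_Ico] at hk ⊢; omega
    · intro k hk; rw [Finset.mem_Ico] at hk; omega
    · intro k hk; rw [Finset.mem_Ico] at hk; omega
    · intro k hk; rfl
  rw [← Finset.mul_sum, Finset.sum_add_distrib, h2] at h1
  have h3 := h0 (2 * m)
  have h4 : (0:ℝ) ≤ (m:ℝ) ^ 2 / 2 := by positivity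
  nlinarith

lemma abs_S_le {m : ℕ} : |S m 0| ≤ 2 * (m:ℝ) ^ 2 := by
  unfold S
  refine (Finset.abs_sum_le_sum_abs _ _).trans (le_trans ?_ sum_b_le)
  refine Finset.sum_le_sum fun k hk => ?_
  rw [Finset.mem_Ico] at hk
  have hb := b_pos (m := m) (k := k) (by omega) hk.2
  rw [abs_mul, abs_mul, abs_pow, abs_neg, abs_one, one_pow, one_mul, abs_of_pos hb]
  simp

/-- second derivative at `0` -/
lemma second_zero {m : ℕ} (hm : 0 < m) {f f1 : ℝ → ℝ} {U f2 : ℝ} (hf : f ∈ T m)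
    (h1 : ∀ θ, HasDerivAt f (f1 θ) θ) (h2 : HasDerivAt f1 f2 0)
    (hU : ∀ θ, |f θ| ≤ U) : |f2| ≤ 4 * (m:ℝ) ^ 2 * U := by
  obtain ⟨g1, hg1, hg2⟩ := quad hm hf
  have e : f1 = g1 := by
    funext θ
    exact (h1 θ).unique (hg1 θ)
  subst e
  have e2 := h2.unique hg2
  have hU0 : 0 ≤ U := (abs_nonneg _).trans (hU 0)
  rw [e2]
  refine (abs_add_le _ _).trans ?_
  have h3 : |(-S m 0) * f 0| ≤ 2 * (m:ℝ) ^ 2 * U := by
    rw [abs_mul, abs_neg]
    exact mul_le_mul abs_S_le (hU 0) (abs_nonneg _) (by positivity)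
  have h4 : |∑ k ∈ Finset.Ico 1 (2 * m), (-1 : ℝ) ^ (k + 1) * b m k * f (k * (Real.pi / m))| ≤
      2 * (m:ℝ) ^ 2 * U := by
    refine (Finset.abs_sum_le_sum_abs _ _).trans ?_
    calc ∑ k ∈ Finset.Ico 1 (2 * m), |(-1 : ℝ) ^ (k + 1) * b m k * f (k * (Real.pi / m))|
        ≤ ∑ k ∈ Finset.Ico 1 (2 * m), b m k * U := by
          refine Finset.sum_le_sum fun k hk => ?_
          rw [Finset.mem_Ico] at hk
          have hb := b_pos (m := m) (k := k) (by omega) hk.2
          rw [abs_mul, abs_mul, abs_pow, abs_neg, abs_one, one_pow, one_mul, abs_of_pos hb]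
          exact mul_le_mul_of_nonneg_left (hU _) hb.le
      _ = (∑ k ∈ Finset.Ico 1 (2 * m), b m k) * U := by rw [Finset.sum_mul]
      _ ≤ _ := mul_le_mul_of_nonneg_right sum_b_le hU0
  linarith

lemma shift_mem {m : ℕ} {f : ℝ → ℝ} (hf : f ∈ T m) (c : ℝ) : (fun θ => f (θ + c)) ∈ T m := by
  induction hf using Submodule.span_induction with
  | mem f hf =>
    obtain ⟨j, hj, rfl | rfl⟩ := hf
    · have h1 := (T m).smul_mem (Real.cos (j * c)) (cos_mem hj)
      have h2 := (T m).smul_mem (-Real.sin (j * c)) (sin_mem hj)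
      convert (T m).add_mem h1 h2 using 1
      funext θ
      simp only [Pi.add_apply, Pi.smul_apply, smul_eq_mul]
      rw [mul_add, Real.cos_add]
      ring
    · have h1 := (T m).smul_mem (Real.sin (j * c)) (cos_mem hj)
      have h2 := (T m).smul_mem (Real.cos (j * c)) (sin_mem hj)
      convert (T m).add_mem h1 h2 using 1
      funext θ
      simp only [Pi.add_apply, Pi.smul_apply, smul_eq_mul]
      rw [mul_add, Real.sin_add]
      ring
  | zero => exact (T m).zero_mem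
  | add f g _ _ hf hg => exact (T m).add_mem hf hg
  | smul c f _ hf => exact (T m).smul_mem c hf

lemma pow_cos_mem (k : ℕ) : (fun θ : ℝ => Real.cos θ ^ k) ∈ T k := by
  induction k with
  | zero =>
    have := cos_mem (j := 0) (m := 0) le_rfl
    convert this using 1
    funext θ
    simp
  | succ k ih =>
    have := mul_cos_mem ih
    convert this using 1
    funext θ
    exact pow_succ _ _

lemma poly_cos_mem {p : Polynomial ℝ} {n : ℕ} (hp : p.natDegree ≤ n) :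
    (fun θ : ℝ => p.eval (Real.cos θ)) ∈ T n := by
  have h1 : (fun θ : ℝ => p.eval (Real.cos θ)) =
      ∑ i ∈ Finset.range (n + 1), p.coeff i • (fun θ : ℝ => Real.cos θ ^ i) := by
    funext θ
    rw [Polynomial.eval_eq_sum_range' (Nat.lt_succ_of_le hp), Finset.sum_apply]
    rfl
  rw [h1]
  refine Submodule.sum_mem _ fun i hi => ?_
  rw [Finset.mem_range] at hi
  exact (T n).smul_mem _ (T_mono (by omega) (pow_cos_mem i))

/-- **Bernstein's inequality**, with the constant `6`. -/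
theorem bernstein_poly {p : Polynomial ℝ} {n : ℕ} (hn : 0 < n) (hp : p.natDegree ≤ n) {U : ℝ}
    (hU : ∀ x ∈ Icc (-1:ℝ) 1, |p.eval x| ≤ U) (θ : ℝ) :
    |p.derivative.eval (Real.cos θ) * Real.sin θ| ≤ 6 * n * U := by
  set F : ℝ → ℝ := fun θ => p.eval (Real.cos θ) with hF
  have hFT : F ∈ T n := poly_cos_mem hp
  have hFU : ∀ θ, |F θ| ≤ U := fun θ => hU _ ⟨Real.neg_one_le_cos θ, Real.cos_le_one θ⟩
  have hU0 : 0 ≤ U := (abs_nonneg _).trans (hFU 0)
  set F1 : ℝ → ℝ := fun θ => p.derivative.eval (Real.cos θ) * (- Real.sin θ) with hF1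
  have hd1 : ∀ θ, HasDerivAt F (F1 θ) θ := fun θ =>
    (p.hasDerivAt (Real.cos θ)).comp θ (Real.hasDerivAt_cos θ)
  set F2 : ℝ → ℝ := fun θ => (p.derivative.derivative.eval (Real.cos θ) * (- Real.sin θ)) *
    (- Real.sin θ) + p.derivative.eval (Real.cos θ) * (- Real.cos θ) with hF2
  have hd2 : ∀ θ, HasDerivAt F1 (F2 θ) θ := fun θ =>
    ((p.derivative.hasDerivAt (Real.cos θ)).comp θ (Real.hasDerivAt_cos θ)).mul
      (Real.hasDerivAt_sin θ).neg
  have hF2b : ∀ θ, |F2 θ| ≤ 4 * (n:ℝ) ^ 2 * U := by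
    intro θ
    refine second_zero hn (f := fun x => F (x + θ)) (f1 := fun x => F1 (x + θ)) (shift_mem hFT θ)
      (fun x => ?_) ?_ (fun x => hFU _)
    · exact (hd1 (x + θ)).comp_add_const x θ
    · have := (hd2 (0 + θ)).comp_add_const 0 θ
      rwa [zero_add] at this
  have hn' : (0:ℝ) < n := by exact_mod_cast hn
  -- first order: `F1` is Lipschitz
  have hlip : ∀ x y, |F1 x - F1 y| ≤ 4 * (n:ℝ) ^ 2 * U * |x - y| := by
    intro x y
    have := convex_univ.norm_image_sub_le_of_norm_hasDerivWithin_le (f := F1) (f' := F2)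
      (C := 4 * (n:ℝ) ^ 2 * U) (s := univ) (fun x _ => (hd2 x).hasDerivWithinAt)
      (fun x _ => hF2b x) (mem_univ y) (mem_univ x)
    simpa using this
  -- second order
  set h : ℝ := 1 / n with hh
  have hhp : 0 < h := by positivity
  have h2 : |(F (θ + h) - F1 θ * (θ + h)) - (F θ - F1 θ * θ)| ≤ (4 * (n:ℝ) ^ 2 * U * h) * h := by
    have h3 := (convex_Icc θ (θ + h)).norm_image_sub_le_of_norm_hasDerivWithin_le
      (f := fun x => F x - F1 θ * x) (f' := fun x => F1 x - F1 θ)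
      (C := 4 * (n:ℝ) ^ 2 * U * h) (fun x _ => by
        have := ((hd1 x).sub ((hasDerivAt_id x).const_mul (F1 θ)))
        rw [mul_one] at this
        exact this.hasDerivWithinAt)
      (fun x hx => by
        have h4 := hlip x θ
        have h5 : |x - θ| ≤ h := by
          rw [abs_le]; constructor <;> linarith [hx.1, hx.2]
        exact h4.trans (mul_le_mul_of_nonneg_left h5 (by positivity)))
      (left_mem_Icc.2 (by linarith)) (right_mem_Icc.2 (by linarith))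
    have h6 : ‖θ + h - θ‖ = h := by
      rw [add_sub_cancel_left, Real.norm_eq_abs, abs_of_pos hhp]
    rw [h6] at h3
    exact h3
  have h3 : |F1 θ| * h ≤ 2 * U + (4 * (n:ℝ) ^ 2 * U * h) * h := by
    have e : F1 θ * h = (F (θ + h) - F θ) -
      ((F (θ + h) - F1 θ * (θ + h)) - (F θ - F1 θ * θ)) := by ring
    have h4 : |F1 θ| * h = |F1 θ * h| := by rw [abs_mul (F1 θ) h, abs_of_pos hhp]
    rw [h4, e]
    refine (abs_sub _ _).trans ?_
    have h5 : |F (θ + h) - F θ| ≤ 2 * U := by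
      refine (abs_sub _ _).trans ?_
      linarith [hFU (θ + h), hFU θ]
    linarith
  have h4 : |F1 θ| ≤ 6 * n * U := by
    have h5 : |F1 θ| = |F1 θ| * h * n := by rw [hh]; field_simp
    rw [h5]
    have h6 : |F1 θ| * h * n ≤ (2 * U + (4 * (n:ℝ) ^ 2 * U * h) * h) * n :=
      mul_le_mul_of_nonneg_right h3 hn'.le
    refine h6.trans (le_of_eq ?_)
    rw [hh]
    field_simp
    ring
  have h5 : |p.derivative.eval (Real.cos θ) * Real.sin θ| = |F1 θ| := by
    rw [hF1]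
    simp only [mul_neg, abs_neg]
  rw [h5]
  exact h4

/-- the derivative in the middle of the interval -/
theorem bernstein_mid {p : Polynomial ℝ} {n : ℕ} (hn : 0 < n) (hp : p.natDegree ≤ n) {U : ℝ}
    (hU : ∀ x ∈ Icc (-1:ℝ) 1, |p.eval x| ≤ U) {x : ℝ} (hx : |x| ≤ 1 / 2) :
    |p.derivative.eval x| ≤ 7 * n * U := by
  have hx' := abs_le.1 hx
  have h1 := bernstein_poly hn hp hU (Real.arccos x)
  rw [Real.cos_arccos (by linarith [hx'.1]) (by linarith [hx'.2]), Real.sin_arccos, abs_mul,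
    abs_of_nonneg (Real.sqrt_nonneg _)] at h1
  have h2 : (6:ℝ) / 7 ≤ Real.sqrt (1 - x ^ 2) := by
    apply Real.le_sqrt_of_sq_le
    have : x ^ 2 ≤ (1 / 2) ^ 2 := by
      rw [← sq_abs x]
      exact pow_le_pow_left₀ (abs_nonneg _) hx 2
    nlinarith
  have h3 : |p.derivative.eval x| * (6 / 7) ≤ 6 * n * U :=
    (mul_le_mul_of_nonneg_left h2 (abs_nonneg _)).trans h1
  nlinarith

end Pool.Agent.Q62.HN
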