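import Mathlib
import Pool.Agent.TH525.PU.Mean

/-! Closed solutions of a monotone family of scalar equations `x' = F s t x`. -/

open Set MeasureTheory Topology Filter
open scoped ENNReal NNReal

namespace Pool.Agent.Q62.HN

open Pool.Agent.TH525.PU

/-- `φ` is a closed solution of `x' = F s t x` on `[0, T]` with `φ t ∈ V t`. -/
structure IsClF (T : ℝ) (V : ℝ → Set ℝ) (F : ℝ → ℝ → ℝ → ℝ) (s : ℝ) (φ : ℝ → ℝ) : Prop where
  deriv : ∀ t ∈ Icc 0 T, HasDerivWithinAt φ (F s t (φ t)) (Icc 0 T) t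
  closed : φ 0 = φ T
  mem : ∀ t ∈ Icc 0 T, φ t ∈ V t

/-- each member is Lipschitz in `x` between any two continuous functions -/
def LipF (T : ℝ) (V : ℝ → Set ℝ) (F : ℝ → ℝ → ℝ → ℝ) : Prop :=
  ∀ s, ∀ φ ψ : ℝ → ℝ, ContinuousOn φ (Icc 0 T) → ContinuousOn ψ (Icc 0 T) →
    (∀ t ∈ Icc 0 T, φ t ∈ V t ∧ ψ t ∈ V t) →
    ∃ K : ℝ≥0, ∀ t ∈ Icc 0 T, LipschitzOnWith K (F s t) (uIcc (φ t) (ψ t))

/-- the family is strictly decreasing in the parameter -/
def AntiF (T : ℝ) (V : ℝ → Set ℝ) (F : ℝ → ℝ → ℝ → ℝ) : Prop :=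
  ∀ t ∈ Icc 0 T, ∀ x ∈ V t, StrictAnti fun s => F s t x

variable {T : ℝ} {V : ℝ → Set ℝ} {F : ℝ → ℝ → ℝ → ℝ}

lemma IsClF.cont {s : ℝ} {φ : ℝ → ℝ} (h : IsClF T V F s φ) :
    ContinuousOn φ (Icc 0 T) := fun t ht => (h.deriv t ht).continuousWithinAt

theorem ordF (hL : LipF T V F) (hm : AntiF T V F) {s s' : ℝ}
    {φ ψ : ℝ → ℝ} (hφ : IsClF T V F s φ) (hψ : IsClF T V F s' ψ)
    (h0 : φ 0 < ψ 0) : ∀ t ∈ Icc 0 T, φ t < ψ t := by
  intro t ht
  by_contra hcon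
  push Not at hcon
  set h : ℝ → ℝ := fun x => ψ x - φ x with hh
  have hc : ContinuousOn h (Icc 0 T) := hψ.cont.sub hφ.cont
  have hT : 0 < h T := by
    simp only [hh]; rw [← hψ.closed, ← hφ.closed]; linarith
  obtain ⟨r, hr, hr0, hrp⟩ := first_zero (h := h) ht.1 (hc.mono (Icc_subset_Icc_right ht.2))
    (by simp only [hh]; linarith) (by simp only [hh]; linarith)
  obtain ⟨q, hq, hq0, hqp⟩ := last_zero (h := h) ht.2 (hc.mono (Icc_subset_Icc_left ht.1))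
    (by simp only [hh]; linarith) hT
  have hrm : r ∈ Icc 0 T := ⟨hr.1.le, hr.2.trans ht.2⟩
  have hqm : q ∈ Icc 0 T := ⟨ht.1.trans hq.1, hq.2.le⟩
  have er : φ r = ψ r := by simp only [hh] at hr0; linarith
  have eq : φ q = ψ q := by simp only [hh] at hq0; linarith
  have d1 : HasDerivWithinAt h (F s' r (ψ r) - F s r (ψ r)) (Icc 0 r) r := by
    have := ((hψ.deriv r hrm).sub (hφ.deriv r hrm)).mono (Icc_subset_Icc_right hrm.2)
    rw [er] at this
    exact this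
  have d2 : HasDerivWithinAt h (F s' q (ψ q) - F s q (ψ q)) (Icc q T) q := by
    have := ((hψ.deriv q hqm).sub (hφ.deriv q hqm)).mono (Icc_subset_Icc_left hqm.1)
    rw [eq] at this
    exact this
  have i1 := deriv_nonpos_left hr.1 d1 (fun x hx => by rw [hr0]; exact (hrp x hx).le)
  have i2 := deriv_nonneg_right hq.2 d2 (fun x hx => by rw [hq0]; exact (hqp x hx).le)
  have j1 : s ≤ s' := (hm r hrm (ψ r) (hψ.mem r hrm)).le_iff_ge.1 (by
    show F s' r (ψ r) ≤ F s r (ψ r); linarith)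
  have j2 : s' ≤ s := (hm q hqm (ψ q) (hψ.mem q hqm)).le_iff_ge.1 (by
    show F s q (ψ q) ≤ F s' q (ψ q); linarith)
  have es : s' = s := le_antisymm j2 j1
  subst es
  obtain ⟨K, hK⟩ := hL s' φ ψ hφ.cont hψ.cont (fun t ht => ⟨hφ.mem t ht, hψ.mem t ht⟩)
  have hu : EqOn φ ψ (Icc 0 r) := by
    refine ODE_solution_unique_of_mem_Icc_left (v := fun t x => F s' t x)
      (s := fun t => uIcc (φ t) (ψ t)) (K := K) ?_ ?_ ?_ ?_ ?_ ?_ ?_ er
    · intro x hx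
      exact hK x ⟨hx.1.le, hx.2.trans hrm.2⟩
    · exact hφ.cont.mono (Icc_subset_Icc_right hrm.2)
    · intro x hx
      have hx' : x ∈ Icc 0 T := ⟨hx.1.le, hx.2.trans hrm.2⟩
      refine (hφ.deriv x hx').mono_of_mem_nhdsWithin ?_
      have : Icc 0 x ⊆ Icc 0 T := Icc_subset_Icc_right hx'.2
      exact mem_of_superset (Icc_mem_nhdsLE hx.1) this
    · intro x hx
      exact left_mem_uIcc
    · exact hψ.cont.mono (Icc_subset_Icc_right hrm.2)
    · intro x hx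
      have hx' : x ∈ Icc 0 T := ⟨hx.1.le, hx.2.trans hrm.2⟩
      refine (hψ.deriv x hx').mono_of_mem_nhdsWithin ?_
      have : Icc 0 x ⊆ Icc 0 T := Icc_subset_Icc_right hx'.2
      exact mem_of_superset (Icc_mem_nhdsLE hx.1) this
    · intro x hx
      exact right_mem_uIcc
  have := hu (left_mem_Icc.2 hrm.1)
  linarith

lemma not_ltF (hm : AntiF T V F) (hT : 0 < T) {s s' : ℝ}
    {φ ψ : ℝ → ℝ} (hφ : IsClF T V F s φ) (hψ : IsClF T V F s' ψ)
    (h0 : φ 0 = ψ 0) : ¬ s' < s := by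
  intro hs
  set h : ℝ → ℝ := fun x => ψ x - φ x with hh
  have hc : ContinuousOn h (Icc 0 T) := hψ.cont.sub hφ.cont
  have hTT : h T = 0 := by
    simp only [hh]; rw [← hψ.closed, ← hφ.closed]; linarith
  have h00 : h 0 = 0 := by simp only [hh]; linarith
  have hd : ∀ r ∈ Icc 0 T, h r = 0 →
      ∃ D, 0 < D ∧ HasDerivWithinAt h D (Icc 0 T) r := by
    intro r hr hr0
    have er : φ r = ψ r := by simp only [hh] at hr0; linarith
    have := ((hψ.deriv r hr).sub (hφ.deriv r hr))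
    rw [er] at this
    exact ⟨_, sub_pos.2 (hm r hr (ψ r) (hψ.mem r hr) hs), this⟩
  have hpos : ∃ x ∈ Icc 0 T, 0 < h x := by
    by_contra hcon
    push Not at hcon
    obtain ⟨D, hD, d0⟩ := hd 0 (left_mem_Icc.2 hT.le) h00
    have := deriv_nonneg_right (h := fun x => - h x) hT d0.neg
      (fun x hx => by
        have := hcon x ⟨hx.1.le, hx.2⟩
        rw [h00]; linarith)
    linarith
  obtain ⟨x, hx, hxp⟩ := hpos
  obtain ⟨r, hr, hr0, hrp⟩ := first_zero (h := h) hx.2 (hc.mono (Icc_subset_Icc_left hx.1))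
    hxp hTT.le
  have hrm : r ∈ Icc 0 T := ⟨hx.1.trans hr.1.le, hr.2⟩
  obtain ⟨D, hD, d1⟩ := hd r hrm hr0
  have i1 := deriv_nonpos_left hr.1 (d1.mono (show Icc x r ⊆ Icc 0 T from Icc_subset_Icc hx.1 hr.2))
    (fun y hy => by rw [hr0]; exact (hrp y hy).le)
  linarith

theorem eq_parF (hm : AntiF T V F) (hT : 0 < T) {s s' : ℝ}
    {φ ψ : ℝ → ℝ} (hφ : IsClF T V F s φ) (hψ : IsClF T V F s' ψ)
    (h0 : φ 0 = ψ 0) : s = s' := by
  rcases lt_trichotomy s s' with h | h | h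
  · exact absurd h (not_ltF hm hT hψ hφ h0.symm)
  · exact h
  · exact absurd h (not_ltF hm hT hφ hψ h0)

theorem eq_solF (hL : LipF T V F) (hm : AntiF T V F) (hT : 0 < T) {s s' : ℝ}
    {φ ψ : ℝ → ℝ} (hφ : IsClF T V F s φ) (hψ : IsClF T V F s' ψ)
    (h0 : φ 0 = ψ 0) : EqOn φ ψ (Icc 0 T) := by
  have es := eq_parF hm hT hφ hψ h0
  subst es
  obtain ⟨K, hK⟩ := hL s φ ψ hφ.cont hψ.cont (fun t ht => ⟨hφ.mem t ht, hψ.mem t ht⟩)
  refine ODE_solution_unique_of_mem_Icc_right (v := fun t x => F s t x)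
      (s := fun t => uIcc (φ t) (ψ t)) (K := K) ?_ hφ.cont ?_ ?_ hψ.cont ?_ ?_ h0
  · intro x hx
    exact hK x ⟨hx.1, hx.2.le⟩
  · intro x hx
    have hx' : x ∈ Icc 0 T := ⟨hx.1, hx.2.le⟩
    refine (hφ.deriv x hx').mono_of_mem_nhdsWithin ?_
    have : Icc x T ⊆ Icc 0 T := Icc_subset_Icc_left hx'.1
    exact mem_of_superset (Icc_mem_nhdsGE hx.2) this
  · intro x hx
    exact left_mem_uIcc
  · intro x hx
    have hx' : x ∈ Icc 0 T := ⟨hx.1, hx.2.le⟩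
    refine (hψ.deriv x hx').mono_of_mem_nhdsWithin ?_
    have : Icc x T ⊆ Icc 0 T := Icc_subset_Icc_left hx'.1
    exact mem_of_superset (Icc_mem_nhdsGE hx.2) this
  · intro x hx
    exact right_mem_uIcc

end Pool.Agent.Q62.HN
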