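import Mathlib
import Pool.Agent.TH525.AG.Time

/-! The flux of a vector field through the closed curve with the polar equation `r = exp ρ(t)`. -/

open Set MeasureTheory Topology Filter
open scoped ENNReal NNReal

namespace Pool.Agent.Q62.HN

/-- the point with logarithmic polar coordinates -/
noncomputable def pt (t x : ℝ) : ℝ × ℝ := (Real.exp x * Real.cos t, Real.exp x * Real.sin t)

/-- `x f + y g` -/
def rad (f g : ℝ × ℝ → ℝ) (p : ℝ × ℝ) : ℝ := p.1 * f p + p.2 * g p

/-- `x g - y f` -/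
def ang (f g : ℝ × ℝ → ℝ) (p : ℝ × ℝ) : ℝ := p.1 * g p - p.2 * f p

/-- the divergence -/
noncomputable def dv (f g : ℝ × ℝ → ℝ) (p : ℝ × ℝ) : ℝ :=
  fderiv ℝ f p (1, 0) + fderiv ℝ g p (0, 1)

lemma pt_hasDerivAt_u (t u : ℝ) : HasDerivAt (fun u => pt t u) (pt t u) u :=
  ((Real.hasDerivAt_exp u).mul_const _).prodMk ((Real.hasDerivAt_exp u).mul_const _)

lemma pt_contDiff : ContDiff ℝ 1 (fun p : ℝ × ℝ => pt p.1 p.2) :=
  ((Real.contDiff_exp.comp contDiff_snd).mul (Real.contDiff_cos.comp contDiff_fst)).prodMk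
    ((Real.contDiff_exp.comp contDiff_snd).mul (Real.contDiff_sin.comp contDiff_fst))

lemma pt_cont : Continuous (fun p : ℝ × ℝ => pt p.1 p.2) := pt_contDiff.continuous

variable {f g : ℝ × ℝ → ℝ}

/-- derivative of a `C¹` function along a curve in the plane -/
lemma comp_deriv {G : ℝ × ℝ → ℝ} (hG : ContDiff ℝ 1 G) {γ : ℝ → ℝ × ℝ} {v : ℝ × ℝ} {t : ℝ}
    {s : Set ℝ} (hγ : HasDerivWithinAt γ v s t) :
    HasDerivWithinAt (fun t => G (γ t)) (fderiv ℝ G (γ t) v) s t := by
  have h1 : HasFDerivAt G (fderiv ℝ G (γ t)) (γ t) :=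
    (hG.differentiable (by simp) (γ t)).hasFDerivAt
  exact h1.comp_hasDerivWithinAt t hγ

lemma fderiv_pair (G : ℝ × ℝ → ℝ) (p v : ℝ × ℝ) :
    fderiv ℝ G p v = v.1 * fderiv ℝ G p (1, 0) + v.2 * fderiv ℝ G p (0, 1) := by
  have : v = v.1 • ((1:ℝ), (0:ℝ)) + v.2 • ((0:ℝ), (1:ℝ)) := by ext <;> simp
  conv_lhs => rw [this]
  rw [map_add, map_smul, map_smul, smul_eq_mul, smul_eq_mul]

/-- the integrand of the flux -/
noncomputable def fl (f g : ℝ × ℝ → ℝ) (t u v : ℝ) : ℝ :=
  rad f g (pt t u) - v * ang f g (pt t u)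

/-- the derivative of the integrand with respect to the deformation parameter -/
lemma fl_deriv (hf : ContDiff ℝ 1 f) (hg : ContDiff ℝ 1 g) (t a b a' b' l : ℝ) :
    HasDerivAt (fun l => fl f g t (a + l * (b - a)) (a' + l * (b' - a')))
      ((b - a) * (fderiv ℝ f (pt t (a + l * (b - a))) (pt t (a + l * (b - a))) * (pt t (a + l * (b - a))).1
        + fderiv ℝ g (pt t (a + l * (b - a))) (pt t (a + l * (b - a))) * (pt t (a + l * (b - a))).2
        + rad f g (pt t (a + l * (b - a))))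
      - (b' - a') * ang f g (pt t (a + l * (b - a)))
      - (a' + l * (b' - a')) * ((b - a) *
        (fderiv ℝ g (pt t (a + l * (b - a))) (pt t (a + l * (b - a))) * (pt t (a + l * (b - a))).1
        - fderiv ℝ f (pt t (a + l * (b - a))) (pt t (a + l * (b - a))) * (pt t (a + l * (b - a))).2
        + ang f g (pt t (a + l * (b - a)))))) l := by
  have h0 : HasDerivAt (fun l : ℝ => a + l * (b - a)) (b - a) l := by
    simpa using ((hasDerivAt_id l).mul_const (b - a)).const_add a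
  have h0' : HasDerivAt (fun l : ℝ => a' + l * (b' - a')) (b' - a') l := by
    simpa using ((hasDerivAt_id l).mul_const (b' - a')).const_add a'
  have hp : HasDerivAt (fun l => pt t (a + l * (b - a))) ((b - a) • pt t (a + l * (b - a))) l :=
    (pt_hasDerivAt_u t _).scomp l h0
  have hp1 : HasDerivAt (fun l => (pt t (a + l * (b - a))).1)
      ((b - a) * (pt t (a + l * (b - a))).1) l := hp.fst
  have hp2 : HasDerivAt (fun l => (pt t (a + l * (b - a))).2)
      ((b - a) * (pt t (a + l * (b - a))).2) l := hp.snd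
  have hF : HasDerivAt (fun l => f (pt t (a + l * (b - a))))
      ((b - a) * fderiv ℝ f (pt t (a + l * (b - a))) (pt t (a + l * (b - a)))) l := by
    have := comp_deriv hf hp.hasDerivWithinAt (s := univ)
    rw [map_smul, smul_eq_mul] at this
    exact this.hasDerivAt univ_mem
  have hG : HasDerivAt (fun l => g (pt t (a + l * (b - a))))
      ((b - a) * fderiv ℝ g (pt t (a + l * (b - a))) (pt t (a + l * (b - a)))) l := by
    have := comp_deriv hg hp.hasDerivWithinAt (s := univ)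
    rw [map_smul, smul_eq_mul] at this
    exact this.hasDerivAt univ_mem
  have := ((hp1.mul hF).add (hp2.mul hG)).sub
    (h0'.mul ((hp1.mul hG).sub (hp2.mul hF)))
  refine (this.congr_deriv ?_)
  simp only [rad, ang, Pi.mul_apply, Pi.sub_apply]
  ring

/-- the derivative along the curve of the term whose integral vanishes -/
lemma ang_deriv (hf : ContDiff ℝ 1 f) (hg : ContDiff ℝ 1 g) {D ρ : ℝ → ℝ} {D' ρ' t : ℝ} {s : Set ℝ}
    (hD : HasDerivWithinAt D D' s t) (hρ : HasDerivWithinAt ρ ρ' s t) :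
    HasDerivWithinAt (fun t => D t * ang f g (pt t (ρ t)))
      (D' * ang f g (pt t (ρ t)) + D t * (
        (ρ' * (pt t (ρ t)).1 - (pt t (ρ t)).2) * g (pt t (ρ t)) +
        (pt t (ρ t)).1 * ((ρ' * (pt t (ρ t)).1 - (pt t (ρ t)).2) * fderiv ℝ g (pt t (ρ t)) (1, 0) +
          (ρ' * (pt t (ρ t)).2 + (pt t (ρ t)).1) * fderiv ℝ g (pt t (ρ t)) (0, 1)) -
        ((ρ' * (pt t (ρ t)).2 + (pt t (ρ t)).1) * f (pt t (ρ t)) +
        (pt t (ρ t)).2 * ((ρ' * (pt t (ρ t)).1 - (pt t (ρ t)).2) * fderiv ℝ f (pt t (ρ t)) (1, 0) +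
          (ρ' * (pt t (ρ t)).2 + (pt t (ρ t)).1) * fderiv ℝ f (pt t (ρ t)) (0, 1))))) s t := by
  have hp1 : HasDerivWithinAt (fun t => (pt t (ρ t)).1)
      (ρ' * (pt t (ρ t)).1 - (pt t (ρ t)).2) s t := by
    have := hρ.exp.mul (Real.hasDerivAt_cos t).hasDerivWithinAt
    refine this.congr_deriv ?_
    simp only [pt]; ring
  have hp2 : HasDerivWithinAt (fun t => (pt t (ρ t)).2)
      (ρ' * (pt t (ρ t)).2 + (pt t (ρ t)).1) s t := by
    have := hρ.exp.mul (Real.hasDerivAt_sin t).hasDerivWithinAt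
    refine this.congr_deriv ?_
    simp only [pt]; ring
  have hp : HasDerivWithinAt (fun t => pt t (ρ t))
      (ρ' * (pt t (ρ t)).1 - (pt t (ρ t)).2, ρ' * (pt t (ρ t)).2 + (pt t (ρ t)).1) s t :=
    hp1.prodMk hp2
  have hF := comp_deriv hf hp
  have hG := comp_deriv hg hp
  rw [fderiv_pair] at hF hG
  simp only at hF hG
  have := hD.mul ((hp1.mul hG).sub (hp2.mul hF))
  refine this.congr_deriv ?_
  simp only [ang, Pi.mul_apply, Pi.sub_apply]

/-- the pointwise identity -/
lemma key_id (f g : ℝ × ℝ → ℝ) (t u δ δ' v : ℝ) :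
    (δ * (fderiv ℝ f (pt t u) (pt t u) * (pt t u).1
        + fderiv ℝ g (pt t u) (pt t u) * (pt t u).2 + rad f g (pt t u))
      - δ' * ang f g (pt t u)
      - v * (δ * (fderiv ℝ g (pt t u) (pt t u) * (pt t u).1
        - fderiv ℝ f (pt t u) (pt t u) * (pt t u).2 + ang f g (pt t u)))) =
    δ * (Real.exp (2 * u) * dv f g (pt t u)) -
    (δ' * ang f g (pt t u) + δ * (
        (v * (pt t u).1 - (pt t u).2) * g (pt t u) +
        (pt t u).1 * ((v * (pt t u).1 - (pt t u).2) * fderiv ℝ g (pt t u) (1, 0) +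
          (v * (pt t u).2 + (pt t u).1) * fderiv ℝ g (pt t u) (0, 1)) -
        ((v * (pt t u).2 + (pt t u).1) * f (pt t u) +
        (pt t u).2 * ((v * (pt t u).1 - (pt t u).2) * fderiv ℝ f (pt t u) (1, 0) +
          (v * (pt t u).2 + (pt t u).1) * fderiv ℝ f (pt t u) (0, 1))))) := by
  have he : Real.exp (2 * u) = (pt t u).1 ^ 2 + (pt t u).2 ^ 2 := by
    simp only [pt]
    rw [two_mul, Real.exp_add]
    have := Real.sin_sq_add_cos_sq t
    linear_combination (-(Real.exp u * Real.exp u)) * this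
  rw [he, fderiv_pair f (pt t u) (pt t u), fderiv_pair g (pt t u) (pt t u)]
  simp only [dv, rad, ang]
  ring

end Pool.Agent.Q62.HN
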