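import Mathlib
import Pool.Agent.Q62.HN.Flux

/-! The divergence theorem between two closed curves which are graphs in polar coordinates. -/

open Set MeasureTheory Topology Filter
open scoped ENNReal NNReal

namespace Pool.Agent.Q62.HN

variable {f g : ℝ × ℝ → ℝ}

/-- the term with vanishing mean -/
noncomputable def kk (f g : ℝ × ℝ → ℝ) (t u δ δ' v : ℝ) : ℝ :=
  (δ' * ang f g (pt t u) + δ * (
        (v * (pt t u).1 - (pt t u).2) * g (pt t u) +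
        (pt t u).1 * ((v * (pt t u).1 - (pt t u).2) * fderiv ℝ g (pt t u) (1, 0) +
          (v * (pt t u).2 + (pt t u).1) * fderiv ℝ g (pt t u) (0, 1)) -
        ((v * (pt t u).2 + (pt t u).1) * f (pt t u) +
        (pt t u).2 * ((v * (pt t u).1 - (pt t u).2) * fderiv ℝ f (pt t u) (1, 0) +
          (v * (pt t u).2 + (pt t u).1) * fderiv ℝ f (pt t u) (0, 1)))))

lemma fd_cont {G : ℝ × ℝ → ℝ} (hG : ContDiff ℝ 1 G) (v : ℝ × ℝ) :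
    Continuous fun p => fderiv ℝ G p v :=
  (hG.continuous_fderiv (by simp)).clm_apply continuous_const

lemma dv_cont (hf : ContDiff ℝ 1 f) (hg : ContDiff ℝ 1 g) : Continuous (dv f g) :=
  (fd_cont hf _).add (fd_cont hg _)

/-- data: two closed `C¹` functions -/
structure Pair (T : ℝ) (ρ₁ ρ₂ r₁ r₂ : ℝ → ℝ) : Prop where
  c₁ : ContinuousOn r₁ (Icc 0 T)
  c₂ : ContinuousOn r₂ (Icc 0 T)
  d₁ : ∀ t ∈ Icc 0 T, HasDerivWithinAt ρ₁ (r₁ t) (Icc 0 T) t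
  d₂ : ∀ t ∈ Icc 0 T, HasDerivWithinAt ρ₂ (r₂ t) (Icc 0 T) t

variable {ρ₁ ρ₂ r₁ r₂ : ℝ → ℝ}

lemma Pair.cont₁ {T : ℝ} (h : Pair T ρ₁ ρ₂ r₁ r₂) : ContinuousOn ρ₁ (Icc 0 T) :=
  fun t ht => (h.d₁ t ht).continuousWithinAt

lemma Pair.cont₂ {T : ℝ} (h : Pair T ρ₁ ρ₂ r₁ r₂) : ContinuousOn ρ₂ (Icc 0 T) :=
  fun t ht => (h.d₂ t ht).continuousWithinAt

/-- joint continuity of the linear interpolation -/
lemma interp_cont {T : ℝ} {a b : ℝ → ℝ} (ha : ContinuousOn a (Icc 0 T))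
    (hb : ContinuousOn b (Icc 0 T)) :
    ContinuousOn (fun p : ℝ × ℝ => a p.1 + p.2 * (b p.1 - a p.1)) (Icc 0 T ×ˢ Icc 0 1) := by
  have h1 : ContinuousOn (fun p : ℝ × ℝ => a p.1) (Icc 0 T ×ˢ Icc 0 1) :=
    ha.comp continuousOn_fst (fun p hp => hp.1)
  have h2 : ContinuousOn (fun p : ℝ × ℝ => b p.1) (Icc 0 T ×ˢ Icc 0 1) :=
    hb.comp continuousOn_fst (fun p hp => hp.1)
  exact h1.add (continuousOn_snd.mul (h2.sub h1))

/-- joint continuity -/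
lemma kk_cont (hf : ContDiff ℝ 1 f) (hg : ContDiff ℝ 1 g) {T : ℝ} (h : Pair T ρ₁ ρ₂ r₁ r₂) :
    ContinuousOn (fun p : ℝ × ℝ => kk f g p.1 (ρ₁ p.1 + p.2 * (ρ₂ p.1 - ρ₁ p.1))
      (ρ₂ p.1 - ρ₁ p.1) (r₂ p.1 - r₁ p.1) (r₁ p.1 + p.2 * (r₂ p.1 - r₁ p.1)))
      (Icc 0 T ×ˢ Icc 0 1) := by
  have hu := interp_cont h.cont₁ h.cont₂
  have hv := interp_cont h.c₁ h.c₂
  have hP : ContinuousOn (fun p : ℝ × ℝ => pt p.1 (ρ₁ p.1 + p.2 * (ρ₂ p.1 - ρ₁ p.1)))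
      (Icc 0 T ×ˢ Icc 0 1) := pt_cont.comp_continuousOn (continuousOn_fst.prodMk hu)
  have hP1 := continuous_fst.comp_continuousOn hP
  have hP2 := continuous_snd.comp_continuousOn hP
  have hδ : ContinuousOn (fun p : ℝ × ℝ => ρ₂ p.1 - ρ₁ p.1) (Icc 0 T ×ˢ Icc 0 1) :=
    (h.cont₂.sub h.cont₁).comp continuousOn_fst (fun p hp => hp.1)
  have hδ' : ContinuousOn (fun p : ℝ × ℝ => r₂ p.1 - r₁ p.1) (Icc 0 T ×ˢ Icc 0 1) :=
    (h.c₂.sub h.c₁).comp continuousOn_fst (fun p hp => hp.1)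
  have hF := hf.continuous.comp_continuousOn hP
  have hG := hg.continuous.comp_continuousOn hP
  have hF1 := (fd_cont hf (1, 0)).comp_continuousOn hP
  have hF2 := (fd_cont hf (0, 1)).comp_continuousOn hP
  have hG1 := (fd_cont hg (1, 0)).comp_continuousOn hP
  have hG2 := (fd_cont hg (0, 1)).comp_continuousOn hP
  have hx := (hv.mul hP1).sub hP2
  have hy := (hv.mul hP2).add hP1
  exact (hδ'.mul ((hP1.mul hG).sub (hP2.mul hF))).add (hδ.mul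
    (((hx.mul hG).add (hP1.mul ((hx.mul hG1).add (hy.mul hG2)))).sub
      ((hy.mul hF).add (hP2.mul ((hx.mul hF1).add (hy.mul hF2))))))

/-- the second term has mean zero -/
lemma kk_mean (hf : ContDiff ℝ 1 f) (hg : ContDiff ℝ 1 g)
    (h : Pair (2 * Real.pi) ρ₁ ρ₂ r₁ r₂) (e₁ : ρ₁ 0 = ρ₁ (2 * Real.pi))
    (e₂ : ρ₂ 0 = ρ₂ (2 * Real.pi)) (l : ℝ) (hl : l ∈ Icc (0:ℝ) 1) :
    ∫ t in (0:ℝ)..(2 * Real.pi), kk f g t (ρ₁ t + l * (ρ₂ t - ρ₁ t)) (ρ₂ t - ρ₁ t) (r₂ t - r₁ t)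
      (r₁ t + l * (r₂ t - r₁ t)) = 0 := by
  have hpi := Real.two_pi_pos
  have hc : ContinuousOn (fun t : ℝ => kk f g t (ρ₁ t + l * (ρ₂ t - ρ₁ t)) (ρ₂ t - ρ₁ t)
      (r₂ t - r₁ t) (r₁ t + l * (r₂ t - r₁ t))) (Icc 0 (2 * Real.pi)) :=
    (kk_cont hf hg h).comp (continuousOn_id.prodMk continuousOn_const) (fun t ht => ⟨ht, hl⟩)
  have hi : IntervalIntegrable (fun t : ℝ => kk f g t (ρ₁ t + l * (ρ₂ t - ρ₁ t)) (ρ₂ t - ρ₁ t)
      (r₂ t - r₁ t) (r₁ t + l * (r₂ t - r₁ t))) volume 0 (2 * Real.pi) :=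
    (hc.mono (by rw [uIcc_of_le hpi.le])).intervalIntegrable
  have hd : ∀ t ∈ Icc 0 (2 * Real.pi), HasDerivWithinAt
      (fun t => (ρ₂ t - ρ₁ t) * ang f g (pt t (ρ₁ t + l * (ρ₂ t - ρ₁ t))))
      (kk f g t (ρ₁ t + l * (ρ₂ t - ρ₁ t)) (ρ₂ t - ρ₁ t) (r₂ t - r₁ t)
        (r₁ t + l * (r₂ t - r₁ t))) (Icc 0 (2 * Real.pi)) t := by
    intro t ht
    have hD := (h.d₂ t ht).sub (h.d₁ t ht)
    have hR : HasDerivWithinAt (fun t => ρ₁ t + l * (ρ₂ t - ρ₁ t)) (r₁ t + l * (r₂ t - r₁ t))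
      (Icc 0 (2 * Real.pi)) t := (h.d₁ t ht).add (hD.const_mul l)
    exact ang_deriv hf hg hD hR
  have h1 := intervalIntegral.integral_eq_sub_of_hasDerivAt_of_le hpi.le
    (f := fun t => (ρ₂ t - ρ₁ t) * ang f g (pt t (ρ₁ t + l * (ρ₂ t - ρ₁ t))))
    (fun t ht => (hd t ht).continuousWithinAt)
    (fun x hx => (hd x (Ioo_subset_Icc_self hx)).hasDerivAt (Icc_mem_nhds hx.1 hx.2)) hi
  rw [h1, ← e₁, ← e₂]
  have : pt (2 * Real.pi) (ρ₁ 0 + l * (ρ₂ 0 - ρ₁ 0)) = pt 0 (ρ₁ 0 + l * (ρ₂ 0 - ρ₁ 0)) := by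
    unfold pt
    rw [Real.cos_two_pi, Real.sin_two_pi, Real.cos_zero, Real.sin_zero]
  rw [this, sub_self]

/-- the flux through the curve -/
noncomputable def flux (f g : ℝ × ℝ → ℝ) (ρ r : ℝ → ℝ) : ℝ :=
  ∫ t in (0:ℝ)..(2 * Real.pi), fl f g t (ρ t) (r t)

/-- the enclosed area -/
noncomputable def area (ρ : ℝ → ℝ) : ℝ :=
  ∫ t in (0:ℝ)..(2 * Real.pi), Real.exp (2 * ρ t) / 2

lemma fl_cont (hf : ContDiff ℝ 1 f) (hg : ContDiff ℝ 1 g) {T : ℝ} {ρ r : ℝ → ℝ}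
    (hρ : ContinuousOn ρ (Icc 0 T)) (hr : ContinuousOn r (Icc 0 T)) :
    ContinuousOn (fun t => fl f g t (ρ t) (r t)) (Icc 0 T) := by
  have hP : ContinuousOn (fun t : ℝ => pt t (ρ t)) (Icc 0 T) :=
    pt_cont.comp_continuousOn (continuousOn_id.prodMk hρ)
  have hP1 := continuous_fst.comp_continuousOn hP
  have hP2 := continuous_snd.comp_continuousOn hP
  have hF := hf.continuous.comp_continuousOn hP
  have hG := hg.continuous.comp_continuousOn hP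
  exact ((hP1.mul hF).add (hP2.mul hG)).sub (hr.mul ((hP1.mul hG).sub (hP2.mul hF)))

/-- the difference of the fluxes -/
theorem flux_eq (hf : ContDiff ℝ 1 f) (hg : ContDiff ℝ 1 g)
    (h : Pair (2 * Real.pi) ρ₁ ρ₂ r₁ r₂) (e₁ : ρ₁ 0 = ρ₁ (2 * Real.pi))
    (e₂ : ρ₂ 0 = ρ₂ (2 * Real.pi)) :
    flux f g ρ₂ r₂ - flux f g ρ₁ r₁ = (∫ t in (0:ℝ)..(2 * Real.pi), ∫ l in (0:ℝ)..1,
      (ρ₂ t - ρ₁ t) * (Real.exp (2 * (ρ₁ t + l * (ρ₂ t - ρ₁ t))) *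
        dv f g (pt t (ρ₁ t + l * (ρ₂ t - ρ₁ t))))) ∧
    IntervalIntegrable (fun t => ∫ l in (0:ℝ)..1, (ρ₂ t - ρ₁ t) *
      (Real.exp (2 * (ρ₁ t + l * (ρ₂ t - ρ₁ t))) *
        dv f g (pt t (ρ₁ t + l * (ρ₂ t - ρ₁ t))))) volume 0 (2 * Real.pi) ∧
    ∀ t ∈ Icc 0 (2 * Real.pi), IntervalIntegrable (fun l : ℝ => (ρ₂ t - ρ₁ t) *
      (Real.exp (2 * (ρ₁ t + l * (ρ₂ t - ρ₁ t))) *
        dv f g (pt t (ρ₁ t + l * (ρ₂ t - ρ₁ t))))) volume 0 1 := by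
  have hpi := Real.two_pi_pos
  have i₁ : IntervalIntegrable (fun t => fl f g t (ρ₁ t) (r₁ t)) volume 0 (2 * Real.pi) :=
    ((fl_cont hf hg h.cont₁ h.c₁).mono (by rw [uIcc_of_le hpi.le])).intervalIntegrable
  have i₂ : IntervalIntegrable (fun t => fl f g t (ρ₂ t) (r₂ t)) volume 0 (2 * Real.pi) :=
    ((fl_cont hf hg h.cont₂ h.c₂).mono (by rw [uIcc_of_le hpi.le])).intervalIntegrable
  have hu := interp_cont h.cont₁ h.cont₂
  have hP : ContinuousOn (fun p : ℝ × ℝ => pt p.1 (ρ₁ p.1 + p.2 * (ρ₂ p.1 - ρ₁ p.1)))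
      (Icc 0 (2 * Real.pi) ×ˢ Icc 0 1) := pt_cont.comp_continuousOn (continuousOn_fst.prodMk hu)
  have hδ : ContinuousOn (fun p : ℝ × ℝ => ρ₂ p.1 - ρ₁ p.1) (Icc 0 (2 * Real.pi) ×ˢ Icc 0 1) :=
    (h.cont₂.sub h.cont₁).comp continuousOn_fst (fun p hp => hp.1)
  have hk1 : ContinuousOn (fun p : ℝ × ℝ => (ρ₂ p.1 - ρ₁ p.1) *
      (Real.exp (2 * (ρ₁ p.1 + p.2 * (ρ₂ p.1 - ρ₁ p.1))) *
        dv f g (pt p.1 (ρ₁ p.1 + p.2 * (ρ₂ p.1 - ρ₁ p.1))))) (Icc 0 (2 * Real.pi) ×ˢ Icc 0 1) :=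
    hδ.mul ((continuousOn_const.mul hu).rexp.mul ((dv_cont hf hg).comp_continuousOn hP))
  have hk2 := kk_cont hf hg h
  have hsub1 : (uIoc 0 (2 * Real.pi) ×ˢ uIoc (0:ℝ) 1) ⊆ (Icc 0 (2 * Real.pi) ×ˢ Icc (0:ℝ) 1) := by
    rw [uIoc_of_le hpi.le, uIoc_of_le zero_le_one]
    exact prod_mono Ioc_subset_Icc_self Ioc_subset_Icc_self
  have hI2 : IntegrableOn (Function.uncurry (fun t l : ℝ => kk f g t (ρ₁ t + l * (ρ₂ t - ρ₁ t))
      (ρ₂ t - ρ₁ t) (r₂ t - r₁ t) (r₁ t + l * (r₂ t - r₁ t))))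
      (uIoc 0 (2 * Real.pi) ×ˢ uIoc (0:ℝ) 1) :=
    (hk2.integrableOn_compact (isCompact_Icc.prod isCompact_Icc)).mono_set hsub1
  have hI1 : IntegrableOn (Function.uncurry (fun t l : ℝ => (ρ₂ t - ρ₁ t) *
      (Real.exp (2 * (ρ₁ t + l * (ρ₂ t - ρ₁ t))) * dv f g (pt t (ρ₁ t + l * (ρ₂ t - ρ₁ t))))))
      (uIoc 0 (2 * Real.pi) ×ˢ uIoc (0:ℝ) 1) :=
    (hk1.integrableOn_compact (isCompact_Icc.prod isCompact_Icc)).mono_set hsub1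
  have hsl : ∀ t ∈ Icc 0 (2 * Real.pi), ∀ {G : ℝ × ℝ → ℝ},
      ContinuousOn G (Icc 0 (2 * Real.pi) ×ˢ Icc 0 1) →
      IntervalIntegrable (fun l => G (t, l)) volume 0 1 := by
    intro t ht G hG
    refine ContinuousOn.intervalIntegrable ?_
    rw [uIcc_of_le zero_le_one]
    exact hG.comp (continuousOn_const.prodMk continuousOn_id) (fun l hl => ⟨ht, hl⟩)
  have hpt : ∀ t ∈ Icc 0 (2 * Real.pi), fl f g t (ρ₂ t) (r₂ t) - fl f g t (ρ₁ t) (r₁ t) =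
      (∫ l in (0:ℝ)..1, (ρ₂ t - ρ₁ t) * (Real.exp (2 * (ρ₁ t + l * (ρ₂ t - ρ₁ t))) *
        dv f g (pt t (ρ₁ t + l * (ρ₂ t - ρ₁ t))))) -
      ∫ l in (0:ℝ)..1, kk f g t (ρ₁ t + l * (ρ₂ t - ρ₁ t))
      (ρ₂ t - ρ₁ t) (r₂ t - r₁ t) (r₁ t + l * (r₂ t - r₁ t)) := by
    intro t ht
    rw [← intervalIntegral.integral_sub (hsl t ht hk1) (hsl t ht hk2)]
    have hd : ∀ l : ℝ, HasDerivAt
        (fun l => fl f g t (ρ₁ t + l * (ρ₂ t - ρ₁ t)) (r₁ t + l * (r₂ t - r₁ t)))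
        ((ρ₂ t - ρ₁ t) * (Real.exp (2 * (ρ₁ t + l * (ρ₂ t - ρ₁ t))) *
        dv f g (pt t (ρ₁ t + l * (ρ₂ t - ρ₁ t)))) - kk f g t (ρ₁ t + l * (ρ₂ t - ρ₁ t))
      (ρ₂ t - ρ₁ t) (r₂ t - r₁ t) (r₁ t + l * (r₂ t - r₁ t))) l := by
      intro l
      have h1 := fl_deriv hf hg t (ρ₁ t) (ρ₂ t) (r₁ t) (r₂ t) l
      rw [key_id] at h1
      exact h1
    rw [intervalIntegral.integral_eq_sub_of_hasDerivAt (fun l _ => hd l)
      ((hsl t ht hk1).sub (hsl t ht hk2))]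
    simp
  have hzero : ∫ t in (0:ℝ)..(2 * Real.pi), ∫ l in (0:ℝ)..1,
      kk f g t (ρ₁ t + l * (ρ₂ t - ρ₁ t))
      (ρ₂ t - ρ₁ t) (r₂ t - r₁ t) (r₁ t + l * (r₂ t - r₁ t)) = 0 := by
    rw [intervalIntegral_intervalIntegral_swap hI2]
    refine (intervalIntegral.integral_congr (g := fun _ => (0:ℝ)) (fun l hl => ?_)).trans
      (by simp)
    rw [uIcc_of_le (zero_le_one (α := ℝ))] at hl
    exact kk_mean hf hg h e₁ e₂ l hl
  have hJ1 : IntervalIntegrable (fun t => ∫ l in (0:ℝ)..1, (ρ₂ t - ρ₁ t) *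
      (Real.exp (2 * (ρ₁ t + l * (ρ₂ t - ρ₁ t))) *
        dv f g (pt t (ρ₁ t + l * (ρ₂ t - ρ₁ t))))) volume 0 (2 * Real.pi) := by
    rw [intervalIntegrable_iff, IntegrableOn]
    simp_rw [intervalIntegral.integral_of_le (zero_le_one (α := ℝ))]
    rw [IntegrableOn, Measure.volume_eq_prod, ← Measure.prod_restrict,
      uIoc_of_le (zero_le_one (α := ℝ))] at hI1
    exact hI1.integral_prod_left
  have hJ2 : IntervalIntegrable (fun t => ∫ l in (0:ℝ)..1, kk f g t (ρ₁ t + l * (ρ₂ t - ρ₁ t))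
      (ρ₂ t - ρ₁ t) (r₂ t - r₁ t) (r₁ t + l * (r₂ t - r₁ t))) volume 0 (2 * Real.pi) := by
    rw [intervalIntegrable_iff, IntegrableOn]
    simp_rw [intervalIntegral.integral_of_le (zero_le_one (α := ℝ))]
    rw [IntegrableOn, Measure.volume_eq_prod, ← Measure.prod_restrict,
      uIoc_of_le (zero_le_one (α := ℝ))] at hI2
    exact hI2.integral_prod_left
  refine ⟨?_, hJ1, fun t ht => hsl t ht hk1⟩
  unfold flux
  rw [← intervalIntegral.integral_sub i₂ i₁]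
  have h5 : ∫ t in (0:ℝ)..(2 * Real.pi), (fl f g t (ρ₂ t) (r₂ t) - fl f g t (ρ₁ t) (r₁ t)) =
      ∫ t in (0:ℝ)..(2 * Real.pi), ((∫ l in (0:ℝ)..1, (ρ₂ t - ρ₁ t) *
        (Real.exp (2 * (ρ₁ t + l * (ρ₂ t - ρ₁ t))) *
        dv f g (pt t (ρ₁ t + l * (ρ₂ t - ρ₁ t))))) -
      ∫ l in (0:ℝ)..1, kk f g t (ρ₁ t + l * (ρ₂ t - ρ₁ t))
      (ρ₂ t - ρ₁ t) (r₂ t - r₁ t) (r₁ t + l * (r₂ t - r₁ t))) := by
    refine intervalIntegral.integral_congr (fun t ht => ?_)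
    rw [uIcc_of_le hpi.le] at ht
    exact hpt t ht
  rw [h5, intervalIntegral.integral_sub hJ1 hJ2, hzero, sub_zero]

/-- **The flux inequality.** -/
theorem flux_ineq (hf : ContDiff ℝ 1 f) (hg : ContDiff ℝ 1 g)
    (h : Pair (2 * Real.pi) ρ₁ ρ₂ r₁ r₂) (e₁ : ρ₁ 0 = ρ₁ (2 * Real.pi))
    (e₂ : ρ₂ 0 = ρ₂ (2 * Real.pi)) (hle : ∀ t ∈ Icc 0 (2 * Real.pi), ρ₁ t ≤ ρ₂ t) {m M : ℝ}
    (hd : ∀ t ∈ Icc 0 (2 * Real.pi), ∀ u ∈ Icc (ρ₁ t) (ρ₂ t),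
      m ≤ dv f g (pt t u) ∧ dv f g (pt t u) ≤ M) :
    m * (area ρ₂ - area ρ₁) ≤ flux f g ρ₂ r₂ - flux f g ρ₁ r₁ ∧
      flux f g ρ₂ r₂ - flux f g ρ₁ r₁ ≤ M * (area ρ₂ - area ρ₁) := by
  have hpi := Real.two_pi_pos
  obtain ⟨h1, h2, h3⟩ := flux_eq hf hg h e₁ e₂
  have ia : ∀ {ρ : ℝ → ℝ}, ContinuousOn ρ (Icc 0 (2 * Real.pi)) →
      IntervalIntegrable (fun t => Real.exp (2 * ρ t) / 2) volume 0 (2 * Real.pi) := by
    intro ρ hρ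
    refine ContinuousOn.intervalIntegrable ?_
    rw [uIcc_of_le hpi.le]
    exact (continuousOn_const.mul hρ).rexp.div_const 2
  have hmemu : ∀ t ∈ Icc 0 (2 * Real.pi), ∀ l ∈ Icc (0:ℝ) 1,
      ρ₁ t + l * (ρ₂ t - ρ₁ t) ∈ Icc (ρ₁ t) (ρ₂ t) := by
    intro t ht l hl
    have := hle t ht
    constructor
    · nlinarith [hl.1]
    · nlinarith [hl.2]
  have hex : ∀ t ∈ Icc 0 (2 * Real.pi), (∫ l in (0:ℝ)..1, (ρ₂ t - ρ₁ t) *
      Real.exp (2 * (ρ₁ t + l * (ρ₂ t - ρ₁ t)))) =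
      Real.exp (2 * ρ₂ t) / 2 - Real.exp (2 * ρ₁ t) / 2 ∧
      IntervalIntegrable (fun l : ℝ => (ρ₂ t - ρ₁ t) *
      Real.exp (2 * (ρ₁ t + l * (ρ₂ t - ρ₁ t)))) volume 0 1 := by
    intro t ht
    have hi : IntervalIntegrable (fun l : ℝ => (ρ₂ t - ρ₁ t) *
      Real.exp (2 * (ρ₁ t + l * (ρ₂ t - ρ₁ t)))) volume 0 1 := by
      refine Continuous.intervalIntegrable ?_ _ _
      fun_prop
    refine ⟨?_, hi⟩
    have hdd : ∀ l : ℝ, HasDerivAt (fun l => Real.exp (2 * (ρ₁ t + l * (ρ₂ t - ρ₁ t))) / 2)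
        ((ρ₂ t - ρ₁ t) * Real.exp (2 * (ρ₁ t + l * (ρ₂ t - ρ₁ t)))) l := by
      intro l
      have h0 : HasDerivAt (fun l : ℝ => ρ₁ t + l * (ρ₂ t - ρ₁ t)) (ρ₂ t - ρ₁ t) l := by
        simpa using ((hasDerivAt_id l).mul_const (ρ₂ t - ρ₁ t)).const_add (ρ₁ t)
      have h4 := ((h0.const_mul 2).exp).div_const 2
      refine h4.congr_deriv ?_
      ring
    rw [intervalIntegral.integral_eq_sub_of_hasDerivAt (fun l _ => hdd l) hi]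
    simp
  have hA : area ρ₂ - area ρ₁ = ∫ t in (0:ℝ)..(2 * Real.pi),
      (Real.exp (2 * ρ₂ t) / 2 - Real.exp (2 * ρ₁ t) / 2) := by
    unfold area
    rw [intervalIntegral.integral_sub (ia h.cont₂) (ia h.cont₁)]
  have iA : IntervalIntegrable (fun t => (Real.exp (2 * ρ₂ t) / 2 - Real.exp (2 * ρ₁ t) / 2))
      volume 0 (2 * Real.pi) := (ia h.cont₂).sub (ia h.cont₁)
  rw [h1, hA, ← intervalIntegral.integral_const_mul, ← intervalIntegral.integral_const_mul]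
  constructor
  · refine intervalIntegral.integral_mono_on hpi.le (iA.const_mul m) h2 (fun t ht => ?_)
    rw [← (hex t ht).1, ← intervalIntegral.integral_const_mul]
    refine intervalIntegral.integral_mono_on zero_le_one ((hex t ht).2.const_mul m) (h3 t ht)
      (fun l hl => ?_)
    have h5 := (hd t ht _ (hmemu t ht l hl)).1
    have h6 := sub_nonneg.2 (hle t ht)
    have h7 := Real.exp_pos (2 * (ρ₁ t + l * (ρ₂ t - ρ₁ t)))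
    have h8 : 0 ≤ (ρ₂ t - ρ₁ t) * Real.exp (2 * (ρ₁ t + l * (ρ₂ t - ρ₁ t))) := by positivity
    calc m * ((ρ₂ t - ρ₁ t) * Real.exp (2 * (ρ₁ t + l * (ρ₂ t - ρ₁ t)))) ≤
        dv f g (pt t (ρ₁ t + l * (ρ₂ t - ρ₁ t))) *
          ((ρ₂ t - ρ₁ t) * Real.exp (2 * (ρ₁ t + l * (ρ₂ t - ρ₁ t)))) :=
          mul_le_mul_of_nonneg_right h5 h8
      _ = _ := by ring
  · refine intervalIntegral.integral_mono_on hpi.le h2 (iA.const_mul M) (fun t ht => ?_)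
    rw [← (hex t ht).1, ← intervalIntegral.integral_const_mul]
    refine intervalIntegral.integral_mono_on zero_le_one (h3 t ht) ((hex t ht).2.const_mul M)
      (fun l hl => ?_)
    have h5 := (hd t ht _ (hmemu t ht l hl)).2
    have h6 := sub_nonneg.2 (hle t ht)
    have h7 := Real.exp_pos (2 * (ρ₁ t + l * (ρ₂ t - ρ₁ t)))
    have h8 : 0 ≤ (ρ₂ t - ρ₁ t) * Real.exp (2 * (ρ₁ t + l * (ρ₂ t - ρ₁ t))) := by positivity
    calc (ρ₂ t - ρ₁ t) * (Real.exp (2 * (ρ₁ t + l * (ρ₂ t - ρ₁ t))) *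
          dv f g (pt t (ρ₁ t + l * (ρ₂ t - ρ₁ t)))) =
        dv f g (pt t (ρ₁ t + l * (ρ₂ t - ρ₁ t))) *
          ((ρ₂ t - ρ₁ t) * Real.exp (2 * (ρ₁ t + l * (ρ₂ t - ρ₁ t)))) := by ring
      _ ≤ _ := mul_le_mul_of_nonneg_right h5 h8

/-- the area is monotone -/
lemma area_lt {ρ₁ ρ₂ : ℝ → ℝ} (h1 : ContinuousOn ρ₁ (Icc 0 (2 * Real.pi)))
    (h2 : ContinuousOn ρ₂ (Icc 0 (2 * Real.pi)))
    (hlt : ∀ t ∈ Icc 0 (2 * Real.pi), ρ₁ t < ρ₂ t) : area ρ₁ < area ρ₂ := by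
  have hpi := Real.two_pi_pos
  refine intervalIntegral.integral_lt_integral_of_continuousOn_of_le_of_exists_lt hpi
    ((continuousOn_const.mul h1).rexp.div_const 2) ((continuousOn_const.mul h2).rexp.div_const 2)
    (fun t ht => ?_) ⟨0, left_mem_Icc.2 hpi.le, ?_⟩
  · have := hlt t (Ioc_subset_Icc_self ht)
    have h3 : Real.exp (2 * ρ₁ t) ≤ Real.exp (2 * ρ₂ t) := Real.exp_le_exp.2 (by linarith)
    linarith
  · have := hlt 0 (left_mem_Icc.2 hpi.le)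
    have h3 : Real.exp (2 * ρ₁ 0) < Real.exp (2 * ρ₂ 0) := Real.exp_lt_exp.2 (by linarith)
    linarith

/-- bounds of the area -/
lemma area_mem {ρ : ℝ → ℝ} (h1 : ContinuousOn ρ (Icc 0 (2 * Real.pi))) {a b : ℝ}
    (h : ∀ t ∈ Icc 0 (2 * Real.pi), a ≤ Real.exp (ρ t) ∧ Real.exp (ρ t) ≤ b) (ha : 0 < a) :
    area ρ ∈ Icc (Real.pi * a ^ 2) (Real.pi * b ^ 2) := by
  have hpi := Real.two_pi_pos
  have hi : IntervalIntegrable (fun t => Real.exp (2 * ρ t) / 2) volume 0 (2 * Real.pi) := by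
    refine ContinuousOn.intervalIntegrable ?_
    rw [uIcc_of_le hpi.le]
    exact (continuousOn_const.mul h1).rexp.div_const 2
  have he : ∀ t, Real.exp (2 * ρ t) = Real.exp (ρ t) ^ 2 := by
    intro t
    rw [two_mul, Real.exp_add, sq]
  constructor
  · have := intervalIntegral.integral_mono_on (f := fun _ => a ^ 2 / 2) hpi.le
      intervalIntegrable_const hi (fun t ht => by
        have h2 := (h t ht).1
        have h3 : a ^ 2 ≤ Real.exp (ρ t) ^ 2 := pow_le_pow_left₀ ha.le h2 2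
        rw [he]; linarith)
    rw [intervalIntegral.integral_const, smul_eq_mul] at this
    have h4 : Real.pi * a ^ 2 = (2 * Real.pi - 0) * (a ^ 2 / 2) := by ring
    rw [h4]
    exact this
  · have := intervalIntegral.integral_mono_on (g := fun _ => b ^ 2 / 2) hpi.le hi
      intervalIntegrable_const (fun t ht => by
        have h2 := (h t ht).2
        have h3 : Real.exp (ρ t) ^ 2 ≤ b ^ 2 := pow_le_pow_left₀ (Real.exp_pos _).le h2 2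
        rw [he]; linarith)
    rw [intervalIntegral.integral_const, smul_eq_mul] at this
    have h4 : Real.pi * b ^ 2 = (2 * Real.pi - 0) * (b ^ 2 / 2) := by ring
    rw [h4]
    exact this

end Pool.Agent.Q62.HN
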