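import Mathlib
import Pool.Agent.TH525.AG.Ang
import Pool.Agent.Q62.HN.Fam
import Pool.Agent.Q62.HN.Flux2

/-! Closed orbits of the family `X - (s/2) p` as closed solutions in polar coordinates. -/

open Set MeasureTheory Topology Filter
open scoped ENNReal NNReal

namespace Pool.Agent.Q62.HN

open Pool.Agent.TH525.PU

/-- periodicity of the solution from the closedness of the curve -/
theorem per_of_closed {G : ℝ → ℝ → ℝ} {W : ℝ → Set ℝ}
    (hG : ∀ t x, G (t + 2 * Real.pi) x = G t x) (hW : ∀ t, W (t + 2 * Real.pi) = W t)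
    (hL : ∀ (a b : ℝ) (φ ψ : ℝ → ℝ), ContinuousOn φ (Icc a b) → ContinuousOn ψ (Icc a b) →
      (∀ t ∈ Icc a b, φ t ∈ W t ∧ ψ t ∈ W t) →
      ∃ K : ℝ≥0, ∀ t ∈ Icc a b, LipschitzOnWith K (G t) (uIcc (φ t) (ψ t)))
    {ρ : ℝ → ℝ} (hρ : ∀ t, HasDerivAt ρ (G t (ρ t)) t) (hmem : ∀ t, ρ t ∈ W t)
    {S' : ℝ} (hS' : 0 < S') (hcp : ∀ t, curve ρ (t + S') = curve ρ t) :
    ∀ t, ρ (t + 2 * Real.pi) = ρ t := by
  have hpi := Real.two_pi_pos
  have hS0 : ρ S' = ρ 0 ∧ Real.cos S' = 1 := by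
    have h1 := hcp 0
    rw [zero_add] at h1
    unfold curve at h1
    rw [Real.cos_zero, Real.sin_zero, mul_one, mul_zero] at h1
    have h2 := congrArg Prod.fst h1
    have h3 := congrArg Prod.snd h1
    simp only at h2 h3
    have h4 : Real.exp (ρ S') ^ 2 = Real.exp (ρ 0) ^ 2 := by
      have := Real.sin_sq_add_cos_sq S'
      calc Real.exp (ρ S') ^ 2 = Real.exp (ρ S') ^ 2 * (Real.sin S' ^ 2 + Real.cos S' ^ 2) := by
            rw [this, mul_one]
        _ = (Real.exp (ρ S') * Real.cos S') ^ 2 + (Real.exp (ρ S') * Real.sin S') ^ 2 := by ring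
        _ = _ := by rw [h2, h3]; ring
    have h5 : Real.exp (ρ S') = Real.exp (ρ 0) :=
      (pow_left_inj₀ (Real.exp_pos _).le (Real.exp_pos _).le two_ne_zero).1 h4
    refine ⟨Real.exp_injective h5, ?_⟩
    rw [h5] at h2
    have := (Real.exp_pos (ρ 0)).ne'
    exact mul_left_cancel₀ this (by rw [h2, mul_one])
  obtain ⟨k, hk⟩ := (Real.cos_eq_one_iff S').1 hS0.2
  have hk0 : 0 < k := by
    by_contra hcon
    push Not at hcon
    have : (k:ℝ) ≤ 0 := by exact_mod_cast hcon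
    nlinarith
  have hρ2 : ∀ t, HasDerivAt (fun t => ρ (t + 2 * Real.pi)) (G t (ρ (t + 2 * Real.pi))) t := by
    intro t
    have := (hρ (t + 2 * Real.pi)).comp_add_const t (2 * Real.pi)
    rwa [hG] at this
  have hρc : Continuous ρ := continuous_iff_continuousAt.2 fun t => (hρ t).continuousAt
  have hρ2c : Continuous fun t => ρ (t + 2 * Real.pi) :=
    hρc.comp (continuous_id.add continuous_const)
  have huniq : ∀ t₀, ρ (t₀ + 2 * Real.pi) = ρ t₀ → ∀ t, ρ (t + 2 * Real.pi) = ρ t := by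
    intro t₀ ht₀ t
    set a := min t₀ t - 1 with ha
    set b := max t₀ t + 1 with hb
    obtain ⟨K, hK⟩ := hL a b (fun t => ρ (t + 2 * Real.pi)) ρ hρ2c.continuousOn hρc.continuousOn
      (fun t _ => ⟨by rw [← hW t]; exact hmem _, hmem t⟩)
    have h1 := ODE_solution_unique_of_mem_Icc (v := fun t x => G t x)
      (s := fun t => uIcc (ρ (t + 2 * Real.pi)) (ρ t)) (K := K) (t₀ := t₀)
      (f := fun t => ρ (t + 2 * Real.pi)) (g := ρ) (a := a) (b := b)
      (fun t ht => hK t (Ioo_subset_Icc_self ht))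
      ⟨by rw [ha]; linarith [min_le_left t₀ t], by rw [hb]; linarith [le_max_left t₀ t]⟩
      hρ2c.continuousOn (fun t _ => hρ2 t) (fun t _ => left_mem_uIcc)
      hρc.continuousOn (fun t _ => hρ t) (fun t _ => right_mem_uIcc) ht₀
    exact h1 ⟨by rw [ha]; linarith [min_le_right t₀ t], by rw [hb]; linarith [le_max_right t₀ t]⟩
  set D : ℝ → ℝ := fun t => ρ (t + 2 * Real.pi) - ρ t with hD
  have hDc : Continuous D := hρ2c.sub hρc
  have hchain : ∀ j : ℕ, ρ (2 * Real.pi * (j + 1)) - ρ 0 =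
      ∑ i ∈ Finset.range (j + 1), D (2 * Real.pi * i) := by
    intro j
    induction j with
    | zero => simp [hD]
    | succ j ih =>
      rw [Finset.sum_range_succ, ← ih]
      simp only [hD]
      push_cast
      rw [show 2 * Real.pi * ((j:ℝ) + 1) + 2 * Real.pi = 2 * Real.pi * (j + 1 + 1) by ring]
      ring
  obtain ⟨j, hj⟩ : ∃ j : ℕ, k = (j:ℤ) + 1 := ⟨(k - 1).toNat, by omega⟩
  have hsum : ∑ i ∈ Finset.range (j + 1), D (2 * Real.pi * i) = 0 := by
    rw [← hchain j]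
    have : 2 * Real.pi * ((j:ℝ) + 1) = S' := by
      rw [← hk, hj]; push_cast; ring
    rw [this, hS0.1, sub_self]
  have hzero : ∃ t₀, D t₀ = 0 := by
    by_contra hcon
    push Not at hcon
    rcases lt_or_gt_of_ne (hcon 0) with h0 | h0
    · have hneg : ∀ t, D t < 0 := by
        intro t
        by_contra hc
        push Not at hc
        obtain ⟨t₀, ht₀⟩ := mem_range_of_exists_le_of_exists_ge hDc ⟨0, h0.le⟩ ⟨t, hc⟩
        exact hcon t₀ ht₀
      have := Finset.sum_neg (s := Finset.range (j + 1)) (f := fun i : ℕ => D (2 * Real.pi * i))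
        (fun i _ => hneg _) ⟨0, by simp⟩
      linarith
    · have hpos : ∀ t, 0 < D t := by
        intro t
        by_contra hc
        push Not at hc
        obtain ⟨t₀, ht₀⟩ := mem_range_of_exists_le_of_exists_ge hDc ⟨t, hc⟩ ⟨0, h0.le⟩
        exact hcon t₀ ht₀
      have := Finset.sum_pos (s := Finset.range (j + 1)) (f := fun i : ℕ => D (2 * Real.pi * i))
        (fun i _ => hpos _) ⟨0, by simp⟩
      linarith
  obtain ⟨t₀, ht₀⟩ := hzero
  exact huniq t₀ (by simp only [hD] at ht₀; linarith)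

/-- the field `X - (s/2) p` -/
noncomputable def fam (f g : ℝ × ℝ → ℝ) (s : ℝ) (p : ℝ × ℝ) : ℝ × ℝ :=
  (f p - s / 2 * p.1, g p - s / 2 * p.2)

/-- the closed orbits in a region -/
def closedOrbitsIn (X : ℝ × ℝ → ℝ × ℝ) (A : Set (ℝ × ℝ)) : Set (Set (ℝ × ℝ)) :=
  {C | (∃ γ : ℝ → ℝ × ℝ, ∃ T : ℝ, 0 < T ∧ (∀ t : ℝ, HasDerivAt γ (X (γ t)) t) ∧
    (∀ t : ℝ, γ (t + T) = γ t) ∧ (∃ a b : ℝ, γ a ≠ γ b) ∧ C = range γ) ∧ C ⊆ A}

/-- the region in logarithmic polar coordinates -/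
def reg (A : Set (ℝ × ℝ)) (t : ℝ) : Set ℝ := {x | pt t x ∈ A}

/-- the scalar equation -/
noncomputable def sc (f g : ℝ × ℝ → ℝ) (s t x : ℝ) : ℝ :=
  (rad f g (pt t x) - s / 2 * Real.exp (2 * x)) / ang f g (pt t x)

variable {f g : ℝ × ℝ → ℝ} {A : Set (ℝ × ℝ)}

lemma curve_eq (ρ : ℝ → ℝ) (t : ℝ) : curve ρ t = pt t (ρ t) := rfl

lemma pt_per (t x : ℝ) : pt (t + 2 * Real.pi) x = pt t x := by
  unfold pt; rw [Real.cos_add_two_pi, Real.sin_add_two_pi]

lemma pt_sq (t x : ℝ) : (pt t x).1 ^ 2 + (pt t x).2 ^ 2 = Real.exp (2 * x) := by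
  simp only [pt]
  rw [two_mul, Real.exp_add]
  have := Real.sin_sq_add_cos_sq t
  linear_combination (Real.exp x * Real.exp x) * this

lemma radC (hf : ContDiff ℝ 1 f) (hg : ContDiff ℝ 1 g) (s : ℝ) :
    ContDiff ℝ 1 (fun p : ℝ × ℝ => rad f g (pt p.1 p.2) - s / 2 * Real.exp (2 * p.2)) := by
  have h1 : ContDiff ℝ 1 (fun p : ℝ × ℝ => (pt p.1 p.2).1) := contDiff_fst.comp pt_contDiff
  have h2 : ContDiff ℝ 1 (fun p : ℝ × ℝ => (pt p.1 p.2).2) := contDiff_snd.comp pt_contDiff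
  exact ((h1.mul (hf.comp pt_contDiff)).add (h2.mul (hg.comp pt_contDiff))).sub
    (contDiff_const.mul (Real.contDiff_exp.comp (contDiff_const.mul contDiff_snd)))

lemma angC (hf : ContDiff ℝ 1 f) (hg : ContDiff ℝ 1 g) :
    ContDiff ℝ 1 (fun p : ℝ × ℝ => ang f g (pt p.1 p.2)) := by
  have h1 : ContDiff ℝ 1 (fun p : ℝ × ℝ => (pt p.1 p.2).1) := contDiff_fst.comp pt_contDiff
  have h2 : ContDiff ℝ 1 (fun p : ℝ × ℝ => (pt p.1 p.2).2) := contDiff_snd.comp pt_contDiff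
  exact (h1.mul (hg.comp pt_contDiff)).sub (h2.mul (hf.comp pt_contDiff))

lemma reg_lipG (hf : ContDiff ℝ 1 f) (hg : ContDiff ℝ 1 g) (hA : ∀ t, (reg A t).OrdConnected)
    (hpos : ∀ p ∈ A, 0 < ang f g p) (s : ℝ) (a b : ℝ)
    (φ ψ : ℝ → ℝ) (hφ : ContinuousOn φ (Icc a b)) (hψ : ContinuousOn ψ (Icc a b))
    (hm : ∀ t ∈ Icc a b, φ t ∈ reg A t ∧ ψ t ∈ reg A t) :
    ∃ K : ℝ≥0, ∀ t ∈ Icc a b, LipschitzOnWith K (sc f g s t) (uIcc (φ t) (ψ t)) :=
  Pool.Agent.TH525.AG.tube_lip (radC hf hg s) (angC hf hg) hφ hψ fun t ht x hx =>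
    (hpos _ ((hA t).uIcc_subset (hm t ht).1 (hm t ht).2 hx)).ne'

lemma lipF_sc (hf : ContDiff ℝ 1 f) (hg : ContDiff ℝ 1 g) (hA : ∀ t, (reg A t).OrdConnected)
    (hpos : ∀ p ∈ A, 0 < ang f g p) (T : ℝ) : LipF T (reg A) (sc f g) :=
  fun s φ ψ hφ hψ hm => reg_lipG hf hg hA hpos s 0 T φ ψ hφ hψ hm

lemma antiF_sc (hpos : ∀ p ∈ A, 0 < ang f g p) (T : ℝ) : AntiF T (reg A) (sc f g) := by
  intro t _ x hx s s' hss
  show sc f g s' t x < sc f g s t x
  unfold sc
  have h1 := hpos _ hx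
  have h2 := Real.exp_pos (2 * x)
  exact div_lt_div_of_pos_right (by nlinarith) h1

lemma pos_of_ang {p : ℝ × ℝ} (h : 0 < ang f g p) : 0 < p.1 ^ 2 + p.2 ^ 2 := by
  by_contra hcon
  have h1 : p.1 = 0 := by nlinarith [sq_nonneg p.1, sq_nonneg p.2]
  have h2 : p.2 = 0 := by nlinarith [sq_nonneg p.1, sq_nonneg p.2]
  unfold ang at h
  rw [h1, h2] at h
  simp at h

/-- reduction to logarithmic polar coordinates -/
theorem orbit_sc (hf : ContDiff ℝ 1 f) (hg : ContDiff ℝ 1 g) (hA : ∀ t, (reg A t).OrdConnected)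
    (hpos : ∀ p ∈ A, 0 < ang f g p) {s : ℝ}
    {C : Set (ℝ × ℝ)} (hC : C ∈ closedOrbitsIn (fam f g s) A) :
    ∃ ρ : ℝ → ℝ, IsClF (2 * Real.pi) (reg A) (sc f g) s ρ ∧
      C = curve ρ '' Icc 0 (2 * Real.pi) := by
  obtain ⟨⟨γ, S, hS, hγ, hper, hnc, rfl⟩, hsub⟩ := hC
  have hγA : ∀ t, γ t ∈ A := fun t => hsub ⟨t, rfl⟩
  have hγc : Continuous γ := continuous_iff_continuousAt.2 fun t => (hγ t).continuousAt
  have hradc : Continuous (rad f g) :=
    (continuous_fst.mul hf.continuous).add (continuous_snd.mul hg.continuous)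
  have hangc : Continuous (ang f g) :=
    (continuous_fst.mul hg.continuous).sub (continuous_snd.mul hf.continuous)
  set H : ℝ × ℝ → ℝ := fun p => (rad f g p - s / 2 * (p.1 ^ 2 + p.2 ^ 2)) / ang f g p with hH
  set q : ℝ × ℝ → ℝ := fun p => ang f g p / (p.1 ^ 2 + p.2 ^ 2) with hq
  set Y : ℝ × ℝ → ℝ × ℝ := fun p => (- p.2 + p.1 * (H p + 0), p.1 + p.2 * (H p + 0)) with hY
  have hfield : ∀ p ∈ A, fam f g s p = q p • Y p := by
    intro p hp
    have h1 := hpos p hp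
    have h2 := pos_of_ang h1
    have h3 := h1.ne'
    have h4 := h2.ne'
    ext
    · simp only [fam, hq, hY, hH, Prod.smul_fst, smul_eq_mul]
      have : rad f g p * p.1 - ang f g p * p.2 = (p.1 ^ 2 + p.2 ^ 2) * f p := by
        unfold rad ang; ring
      field_simp
      linear_combination (-2) * this
    · simp only [fam, hq, hY, hH, Prod.smul_snd, smul_eq_mul]
      have : rad f g p * p.2 + ang f g p * p.1 = (p.1 ^ 2 + p.2 ^ 2) * g p := by
        unfold rad ang; ring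
      field_simp
      linear_combination (-2) * this
  have hqpos : ∀ t, 0 < q (γ t) := fun t =>
    div_pos (hpos _ (hγA t)) (pos_of_ang (hpos _ (hγA t)))
  have hqc : Continuous fun t => q (γ t) := by
    refine Continuous.div (hangc.comp hγc) ?_
      (fun t => (pos_of_ang (hpos _ (hγA t))).ne')
    exact ((continuous_fst.comp hγc).pow 2).add ((continuous_snd.comp hγc).pow 2)
  obtain ⟨Γ, S', hS', hΓ, hΓper, hrange⟩ := Pool.Agent.TH525.AG.time_change (Y := Y) (q := q)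
    (fun t => by rw [← hfield _ (hγA t)]; exact hγ t) hqc hqpos hS hper
  have hΓA : ∀ t, Γ t ∈ A := by
    intro t
    have : Γ t ∈ range γ := hrange ▸ ⟨t, rfl⟩
    exact hsub this
  have hΓc : Continuous Γ := continuous_iff_continuousAt.2 fun t => (hΓ t).continuousAt
  have hHc : Continuous fun t => H (Γ t) := by
    refine Continuous.div ?_ (hangc.comp hΓc) (fun t => (hpos _ (hΓA t)).ne')
    exact (hradc.comp hΓc).sub (continuous_const.mul
      (((continuous_fst.comp hΓc).pow 2).add ((continuous_snd.comp hΓc).pow 2)))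
  have hnc' : ∃ a b, Γ a ≠ Γ b := by
    obtain ⟨a, b, hab⟩ := hnc
    have ha : γ a ∈ range Γ := by rw [hrange]; exact ⟨a, rfl⟩
    have hb : γ b ∈ range Γ := by rw [hrange]; exact ⟨b, rfl⟩
    obtain ⟨a', ha'⟩ := ha
    obtain ⟨b', hb'⟩ := hb
    exact ⟨a', b', by rw [ha', hb']; exact hab⟩
  obtain ⟨ρ, θ, hcur, hρ⟩ := Pool.Agent.TH525.AG.polar_aux (H := H) (s := 0) hΓ hHc hnc'
  have hpi := Real.two_pi_pos
  have hmem : ∀ t, ρ t ∈ reg A t := by
    intro t
    show pt t (ρ t) ∈ A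
    rw [← curve_eq, hcur t]
    exact hΓA _
  have hρ' : ∀ t, HasDerivAt ρ (sc f g s t (ρ t)) t := by
    intro t
    have := hρ t
    have e : H (curve ρ t) + 0 = sc f g s t (ρ t) := by
      rw [add_zero, curve_eq]
      simp only [hH, sc]
      rw [pt_sq]
    rwa [e] at this
  have hcp : ∀ t, curve ρ (t + S') = curve ρ t := by
    intro t
    rw [hcur, hcur, show t + S' - θ = (t - θ) + S' by ring, hΓper]
  have hscp : ∀ t x, sc f g s (t + 2 * Real.pi) x = sc f g s t x := by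
    intro t x
    unfold sc
    rw [pt_per]
  have hregp : ∀ t, reg A (t + 2 * Real.pi) = reg A t := by
    intro t
    unfold reg
    simp only [pt_per]
  have hp := per_of_closed hscp hregp (reg_lipG hf hg hA hpos s) hρ' hmem hS' hcp
  refine ⟨ρ, ⟨fun t _ => (hρ' t).hasDerivWithinAt, ?_, fun t _ => hmem t⟩, ?_⟩
  · have := hp 0
    rw [zero_add] at this
    exact this.symm
  · have h1 : Function.Periodic (curve ρ) (2 * Real.pi) := by
      intro t
      unfold curve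
      rw [hp, Real.cos_add_two_pi, Real.sin_add_two_pi]
    have h2 := h1.image_Icc hpi 0
    rw [zero_add] at h2
    rw [h2, ← hrange]
    ext p
    constructor
    · rintro ⟨t, rfl⟩
      exact ⟨t + θ, by rw [hcur]; simp⟩
    · rintro ⟨t, rfl⟩
      exact ⟨t - θ, (hcur t).symm⟩

end Pool.Agent.Q62.HN
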