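import Mathlib
import Pool.Agent.TH525.PU.Ind

/-! A bound for the variation of the parameter as a function of the enclosed area. -/

open Set MeasureTheory Topology Filter
open scoped ENNReal NNReal

namespace Pool.Agent.Q62.HN

/-- `-log (1 - b) - b - b²/2` increases -/
lemma log_aux {a b : ℝ} (hab : a ≤ b) (hb : b < 1) :
    (b - a) + (b ^ 2 - a ^ 2) / 2 ≤ Real.log ((1 - a) / (1 - b)) := by
  have hm : MonotoneOn (fun x : ℝ => - Real.log (1 - x) - x - x ^ 2 / 2) (Iio 1) := by
    have hd : ∀ x ∈ Iio (1:ℝ), HasDerivAt (fun x : ℝ => - Real.log (1 - x) - x - x ^ 2 / 2)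
        (x ^ 2 / (1 - x)) x := by
      intro x hx
      have hx1 : (1:ℝ) - x ≠ 0 := by
        have : x < 1 := hx
        exact (sub_pos.2 this).ne'
      have h1 : HasDerivAt (fun x : ℝ => 1 - x) (-1) x := by
        simpa using (hasDerivAt_id x).const_sub 1
      have h2 := ((h1.log hx1).neg.sub (hasDerivAt_id x)).sub (((hasDerivAt_id x).pow 2).div_const 2)
      refine (h2.congr_deriv ?_)
      simp only [id]
      field_simp
      ring
    refine monotoneOn_of_deriv_nonneg (convex_Iio 1)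
      (fun x hx => (hd x hx).continuousAt.continuousWithinAt)
      (fun x hx => ?_) (fun x hx => ?_)
    · rw [interior_Iio] at hx
      exact (hd x hx).differentiableAt.differentiableWithinAt
    · rw [interior_Iio] at hx
      rw [(hd x hx).deriv]
      have : x < 1 := hx
      exact div_nonneg (sq_nonneg x) (by linarith)
  have ha : a < 1 := hab.trans_lt hb
  have h := hm (show a ∈ Iio (1:ℝ) from ha) (show b ∈ Iio (1:ℝ) from hb) hab
  simp only at h
  rw [Real.log_div (sub_pos.2 ha).ne' (sub_pos.2 hb).ne']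
  linarith

/-- the normalized pair inequality, increasing case -/
lemma pair_up {A B a b : ℝ} (hA : 0 < A) (hB : 0 < B) (hab : a ≤ b) (hb1 : b ≤ 1)
    (h : (1 - a) * A ≤ (1 - b) * B) :
    (b - a) ≤ Real.log B - Real.log A - (b ^ 2 - a ^ 2) / 2 ∨ A > B := by
  rcases lt_or_ge B A with hBA | hAB
  · exact Or.inr hBA
  · left
    rcases hb1.lt_or_eq with hb | hb
    · have h1 := log_aux hab hb
      have ha1 : 0 < 1 - a := by linarith
      have hb1 : 0 < 1 - b := by linarith
      have h2 : (1 - a) / (1 - b) ≤ B / A := by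
        rw [div_le_div_iff₀ hb1 hA]
        linarith
      have h3 := Real.log_le_log (div_pos ha1 hb1) h2
      rw [Real.log_div hB.ne' hA.ne'] at h3
      linarith
    · subst hb
      have h2 : (1 - a) * A ≤ 0 := by simpa using h
      have h3 : 1 - a ≤ 0 := by
        by_contra hc
        push Not at hc
        have := mul_pos hc hA
        linarith
      have ha : a = 1 := le_antisymm hab (by linarith)
      subst ha
      have := Real.log_le_log hA hAB
      linarith

/-- the normalized pair inequality -/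
lemma pair_norm {A B a b : ℝ} (hA : 0 < A) (hAB : A ≤ B) (ha : a ∈ Icc (-1:ℝ) 1)
    (hb : b ∈ Icc (-1:ℝ) 1) (h1 : (1 - a) * A ≤ (1 - b) * B) (h2 : (1 + a) * A ≤ (1 + b) * B) :
    |b - a| ≤ (Real.log B - b ^ 2 / 2) - (Real.log A - a ^ 2 / 2) := by
  have hB : 0 < B := hA.trans_le hAB
  rcases le_total a b with h | h
  · rw [abs_of_nonneg (sub_nonneg.2 h)]
    rcases pair_up hA hB h hb.2 h1 with h3 | h3
    · linarith
    · exact absurd h3 (not_lt.2 hAB)
  · rw [abs_of_nonpos (sub_nonpos.2 h)]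
    rcases pair_up hA hB (neg_le_neg h) (by linarith [hb.1])
      (show (1 - -a) * A ≤ (1 - -b) * B by simpa using h2) with h3 | h3
    · have e1 : (-b) ^ 2 = b ^ 2 := by ring
      have e2 : (-a) ^ 2 = a ^ 2 := by ring
      rw [e1, e2] at h3
      linarith
    · exact absurd h3 (not_lt.2 hAB)

/-- the pair inequality -/
lemma pair_ineq {A B a b m M : ℝ} (hmM : m < M) (hA : 0 < A) (hAB : A ≤ B) (ha : a ∈ Icc m M)
    (hb : b ∈ Icc m M) (h1 : (M - a) * A ≤ (M - b) * B) (h2 : (a - m) * A ≤ (b - m) * B) :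
    |b - a| ≤ ((M - m) / 2 * (Real.log B - ((2 * b - m - M) / (M - m)) ^ 2 / 2)) -
      ((M - m) / 2 * (Real.log A - ((2 * a - m - M) / (M - m)) ^ 2 / 2)) := by
  have hd : 0 < M - m := sub_pos.2 hmM
  have hmem : ∀ x ∈ Icc m M, (2 * x - m - M) / (M - m) ∈ Icc (-1:ℝ) 1 := by
    intro x hx
    constructor
    · rw [le_div_iff₀ hd]; linarith [hx.1]
    · rw [div_le_iff₀ hd]; linarith [hx.2]
  have e1 : ∀ x, 1 - (2 * x - m - M) / (M - m) = (M - x) * (2 / (M - m)) := by
    intro x; field_simp; ring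
  have e2 : ∀ x, 1 + (2 * x - m - M) / (M - m) = (x - m) * (2 / (M - m)) := by
    intro x; field_simp; ring
  have hc : 0 ≤ 2 / (M - m) := by positivity
  have h := pair_norm hA hAB (hmem a ha) (hmem b hb)
    (by rw [e1, e1]
        calc (M - a) * (2 / (M - m)) * A = ((M - a) * A) * (2 / (M - m)) := by ring
          _ ≤ ((M - b) * B) * (2 / (M - m)) := mul_le_mul_of_nonneg_right h1 hc
          _ = _ := by ring)
    (by rw [e2, e2]
        calc (a - m) * (2 / (M - m)) * A = ((a - m) * A) * (2 / (M - m)) := by ring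
          _ ≤ ((b - m) * B) * (2 / (M - m)) := mul_le_mul_of_nonneg_right h2 hc
          _ = _ := by ring)
  have e3 : (2 * b - m - M) / (M - m) - (2 * a - m - M) / (M - m) = (b - a) * (2 / (M - m)) := by
    field_simp; ring
  rw [e3, abs_mul, abs_of_nonneg hc] at h
  have h4 := mul_le_mul_of_nonneg_left h (show 0 ≤ (M - m) / 2 by positivity)
  have e4 : (M - m) / 2 * (|b - a| * (2 / (M - m))) = |b - a| := by field_simp
  rw [e4] at h4
  linarith

/-- bound of the variation by a monotone function -/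
lemma var_le_of_pair {σ w : ℝ → ℝ} {E : Set ℝ} {B : ℝ}
    (h : ∀ x ∈ E, ∀ y ∈ E, x ≤ y → |σ y - σ x| ≤ w y - w x)
    (hB : ∀ x ∈ E, ∀ y ∈ E, w y - w x ≤ B) : eVariationOn σ E ≤ ENNReal.ofReal B := by
  refine iSup_le ?_
  rintro ⟨n, u, hu, us⟩
  simp only
  calc ∑ i ∈ Finset.range n, edist (σ (u (i+1))) (σ (u i))
      ≤ ∑ i ∈ Finset.range n, ENNReal.ofReal (w (u (i+1)) - w (u i)) := by
        refine Finset.sum_le_sum fun i _ => ?_
        rw [edist_dist, Real.dist_eq]
        exact ENNReal.ofReal_le_ofReal (h _ (us i) _ (us (i+1)) (hu (Nat.le_succ i)))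
    _ = ENNReal.ofReal (∑ i ∈ Finset.range n, (w (u (i+1)) - w (u i))) := by
        rw [ENNReal.ofReal_sum_of_nonneg]
        intro i _
        exact (abs_nonneg _).trans (h _ (us i) _ (us (i+1)) (hu (Nat.le_succ i)))
    _ = ENNReal.ofReal (w (u n) - w (u 0)) := by
        rw [Finset.sum_range_sub (fun i => w (u i))]
    _ ≤ _ := ENNReal.ofReal_le_ofReal (hB _ (us 0) _ (us n))

/-- **The variation bound.** -/
theorem var_area {σ α : ℝ → ℝ} {E : Set ℝ} {m M a b : ℝ} (hmM : m < M) (ha : 0 < a)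
    (hσ : ∀ x ∈ E, σ x ∈ Icc m M) (hα : ∀ x ∈ E, α x ∈ Icc a b)
    (hmono : ∀ x ∈ E, ∀ y ∈ E, x ≤ y → α x ≤ α y ∧ (M - σ x) * α x ≤ (M - σ y) * α y ∧
      (σ x - m) * α x ≤ (σ y - m) * α y) :
    eVariationOn σ E ≤ ENNReal.ofReal ((M - m) / 2 * (Real.log (b / a) + 1 / 2)) := by
  have hd : 0 < M - m := sub_pos.2 hmM
  refine var_le_of_pair
    (w := fun x => (M - m) / 2 * (Real.log (α x) - ((2 * σ x - m - M) / (M - m)) ^ 2 / 2))
    (fun x hx y hy hxy => ?_) (fun x hx y hy => ?_)
  · obtain ⟨h1, h2, h3⟩ := hmono x hx y hy hxy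
    exact pair_ineq hmM (ha.trans_le (hα x hx).1) h1 (hσ x hx) (hσ y hy) h2 h3
  · have hx0 : 0 < α x := ha.trans_le (hα x hx).1
    have hy0 : 0 < α y := ha.trans_le (hα y hy).1
    have hb : 0 < b := hx0.trans_le (hα x hx).2
    have l1 : Real.log (α y) ≤ Real.log b := Real.log_le_log hy0 (hα y hy).2
    have l2 : Real.log a ≤ Real.log (α x) := Real.log_le_log ha (hα x hx).1
    have l3 : ((2 * σ x - m - M) / (M - m)) ^ 2 ≤ 1 := by
      rw [sq_le_one_iff_abs_le_one, abs_le]
      constructor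
      · rw [le_div_iff₀ hd]; linarith [(hσ x hx).1]
      · rw [div_le_iff₀ hd]; linarith [(hσ x hx).2]
    have l4 : 0 ≤ ((2 * σ y - m - M) / (M - m)) ^ 2 := sq_nonneg _
    rw [Real.log_div hb.ne' ha.ne', ← mul_sub]
    refine mul_le_mul_of_nonneg_left ?_ (by positivity)
    linarith

end Pool.Agent.Q62.HN
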