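import Mathlib
import Pool.Agent.Q62.HN.Var
import Pool.Agent.Q62.HN.Orb

/-! The mean number of closed orbits of the family `X - (s/2) p`. -/

open Set MeasureTheory Topology Filter
open scoped ENNReal NNReal

namespace Pool.Agent.Q62.HN

open Pool.Agent.TH525.PU

variable {f g : ℝ × ℝ → ℝ} {A : Set (ℝ × ℝ)}

/-- the hypotheses on the field and the region -/
structure Hyp (f g : ℝ × ℝ → ℝ) (A : Set (ℝ × ℝ)) : Prop where
  cf : ContDiff ℝ 1 f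
  cg : ContDiff ℝ 1 g
  ord : ∀ t, (reg A t).OrdConnected
  pos : ∀ p ∈ A, 0 < ang f g p

lemma Hyp.contr (h : Hyp f g A) {s : ℝ} {ρ : ℝ → ℝ}
    (hρ : IsClF (2 * Real.pi) (reg A) (sc f g) s ρ) :
    ContinuousOn (fun t => sc f g s t (ρ t)) (Icc 0 (2 * Real.pi)) := by
  have hc : ContinuousOn (fun t : ℝ => ((t, ρ t) : ℝ × ℝ)) (Icc 0 (2 * Real.pi)) :=
    continuousOn_id.prodMk hρ.cont
  refine ContinuousOn.div ((radC h.cf h.cg s).continuous.comp_continuousOn hc)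
    ((angC h.cf h.cg).continuous.comp_continuousOn hc) (fun t ht => ?_)
  exact (h.pos _ (hρ.mem t ht)).ne'

lemma Hyp.pair (h : Hyp f g A) {s₁ s₂ : ℝ} {ρ₁ ρ₂ : ℝ → ℝ}
    (h₁ : IsClF (2 * Real.pi) (reg A) (sc f g) s₁ ρ₁)
    (h₂ : IsClF (2 * Real.pi) (reg A) (sc f g) s₂ ρ₂) :
    Pair (2 * Real.pi) ρ₁ ρ₂ (fun t => sc f g s₁ t (ρ₁ t)) (fun t => sc f g s₂ t (ρ₂ t)) :=
  ⟨h.contr h₁, h.contr h₂, h₁.deriv, h₂.deriv⟩

/-- the flux of `X` through a closed orbit of `X - (s/2) p` is `s` times the area -/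
lemma Hyp.flux_sc (h : Hyp f g A) {s : ℝ} {ρ : ℝ → ℝ}
    (hρ : IsClF (2 * Real.pi) (reg A) (sc f g) s ρ) :
    flux f g ρ (fun t => sc f g s t (ρ t)) = s * area ρ := by
  have hpi := Real.two_pi_pos
  unfold flux area
  rw [← intervalIntegral.integral_const_mul]
  refine intervalIntegral.integral_congr (fun t ht => ?_)
  rw [uIcc_of_le hpi.le] at ht
  have h1 := (h.pos _ (hρ.mem t ht)).ne'
  simp only [fl, sc]
  rw [div_mul_cancel₀ _ h1]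
  ring

/-- **the comparison of two closed orbits** -/
theorem Hyp.compare (h : Hyp f g A) {m M : ℝ} (hd : ∀ p ∈ A, m ≤ dv f g p ∧ dv f g p ≤ M)
    {s₁ s₂ : ℝ} {ρ₁ ρ₂ : ℝ → ℝ}
    (h₁ : IsClF (2 * Real.pi) (reg A) (sc f g) s₁ ρ₁)
    (h₂ : IsClF (2 * Real.pi) (reg A) (sc f g) s₂ ρ₂)
    (hle : ∀ t ∈ Icc 0 (2 * Real.pi), ρ₁ t ≤ ρ₂ t) :
    m * (area ρ₂ - area ρ₁) ≤ s₂ * area ρ₂ - s₁ * area ρ₁ ∧
      s₂ * area ρ₂ - s₁ * area ρ₁ ≤ M * (area ρ₂ - area ρ₁) := by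
  have := flux_ineq h.cf h.cg (h.pair h₁ h₂) h₁.closed h₂.closed hle (m := m) (M := M)
    (fun t ht u hu => hd _ ((h.ord t).out (h₁.mem t ht) (h₂.mem t ht) hu))
  rw [h.flux_sc h₁, h.flux_sc h₂] at this
  exact this

/-- (i) outside `[m, M]` there is at most one closed orbit -/
theorem Hyp.subsingleton (h : Hyp f g A) {m M : ℝ}
    (hd : ∀ p ∈ A, m ≤ dv f g p ∧ dv f g p ≤ M) {s : ℝ} (hs : s ∉ Icc m M) :
    (closedOrbitsIn (fam f g s) A).Subsingleton := by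
  have hpi := Real.two_pi_pos
  have key : ∀ {ρ₁ ρ₂ : ℝ → ℝ}, IsClF (2 * Real.pi) (reg A) (sc f g) s ρ₁ →
      IsClF (2 * Real.pi) (reg A) (sc f g) s ρ₂ → ¬ ρ₁ 0 < ρ₂ 0 := by
    intro ρ₁ ρ₂ h₁ h₂ h0
    have hlt := ordF (lipF_sc h.cf h.cg h.ord h.pos _) (antiF_sc h.pos _) h₁ h₂ h0
    have ha := area_lt h₁.cont h₂.cont hlt
    have hc := h.compare hd h₁ h₂ (fun t ht => (hlt t ht).le)
    have hp : 0 < area ρ₂ - area ρ₁ := sub_pos.2 ha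
    apply hs
    constructor
    · have : m * (area ρ₂ - area ρ₁) ≤ s * (area ρ₂ - area ρ₁) := by linarith [hc.1]
      exact le_of_mul_le_mul_right this hp
    · have : s * (area ρ₂ - area ρ₁) ≤ M * (area ρ₂ - area ρ₁) := by linarith [hc.2]
      exact le_of_mul_le_mul_right this hp
  intro C₁ hC₁ C₂ hC₂
  obtain ⟨ρ₁, h₁, rfl⟩ := orbit_sc h.cf h.cg h.ord h.pos hC₁
  obtain ⟨ρ₂, h₂, rfl⟩ := orbit_sc h.cf h.cg h.ord h.pos hC₂
  have e0 : ρ₁ 0 = ρ₂ 0 := le_antisymm (not_lt.1 (key h₂ h₁)) (not_lt.1 (key h₁ h₂))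
  have he := eq_solF (lipF_sc h.cf h.cg h.ord h.pos _) (antiF_sc h.pos _) hpi h₁ h₂ e0
  refine image_congr (fun t ht => ?_)
  unfold curve
  rw [he ht]

/-- the closed orbits given by closed solutions with the property `Q` -/
def orbs (f g : ℝ × ℝ → ℝ) (A : Set (ℝ × ℝ)) (Q : ℝ → (ℝ → ℝ) → Prop) (s : ℝ) :
    Set (Set (ℝ × ℝ)) :=
  {C | ∃ ρ : ℝ → ℝ, IsClF (2 * Real.pi) (reg A) (sc f g) s ρ ∧
    C = curve ρ '' Icc 0 (2 * Real.pi) ∧ Q s ρ}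

/-- the general majorant -/
theorem Hyp.majorantQ (h : Hyp f g A) (Q : ℝ → (ℝ → ℝ) → Prop) {B : ℝ≥0∞}
    (hQ : ∀ (E : Set ℝ) (σ : ℝ → ℝ) (φ : ℝ → ℝ → ℝ),
      (∀ x ∈ E, IsClF (2 * Real.pi) (reg A) (sc f g) (σ x) (φ x) ∧ φ x 0 = x ∧ Q (σ x) (φ x)) →
      eVariationOn σ E ≤ B) :
    ∃ G : ℝ → ℝ≥0∞, Measurable G ∧
      (∀ s, ((orbs f g A Q s).encard : ℝ≥0∞) ≤ G s) ∧ ∫⁻ s, G s ≤ B := by
  classical
  have hpi := Real.two_pi_pos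
  have hL := lipF_sc h.cf h.cg h.ord h.pos (2 * Real.pi)
  have hAn := antiF_sc (f := f) (g := g) h.pos (2 * Real.pi)
  set E : Set ℝ := {x | ∃ s φ, IsClF (2 * Real.pi) (reg A) (sc f g) s φ ∧ φ 0 = x ∧ Q s φ} with hE
  have hex : ∀ x, ∃ p : ℝ × (ℝ → ℝ), x ∈ E →
      IsClF (2 * Real.pi) (reg A) (sc f g) p.1 p.2 ∧ p.2 0 = x ∧ Q p.1 p.2 := by
    intro x
    by_cases hx : x ∈ E
    · obtain ⟨s, φ, h1, h2, h3⟩ := hx
      exact ⟨(s, φ), fun _ => ⟨h1, h2, h3⟩⟩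
    · exact ⟨(0, fun _ => 0), fun h => absurd h hx⟩
  choose P hP using hex
  obtain ⟨G, hGm, hG, hGi⟩ := majorant (fun x => (P x).1) E
  refine ⟨G, hGm, fun s => ?_, hGi.trans (hQ E (fun x => (P x).1) (fun x => (P x).2) hP)⟩
  refine le_trans ?_ (hG s)
  refine ENat.toENNReal_le.2 ?_
  have hch : ∀ C : Set (ℝ × ℝ), ∃ x : ℝ, C ∈ orbs f g A Q s →
      ∃ ρ : ℝ → ℝ, IsClF (2 * Real.pi) (reg A) (sc f g) s ρ ∧
        C = curve ρ '' Icc 0 (2 * Real.pi) ∧ Q s ρ ∧ ρ 0 = x := by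
    intro C
    by_cases hC : C ∈ orbs f g A Q s
    · obtain ⟨ρ, h1, h2, h3⟩ := id hC
      exact ⟨ρ 0, fun _ => ⟨ρ, h1, h2, h3, rfl⟩⟩
    · exact ⟨0, fun h => absurd h hC⟩
  choose X hX using hch
  refine Set.encard_le_encard_of_injOn (f := X) ?_ ?_
  · intro C hC
    obtain ⟨ρ, h1, h2, hq, h3⟩ := hX C hC
    have hxE : X C ∈ E := ⟨s, ρ, h1, h3, hq⟩
    refine ⟨hxE, ?_⟩
    have h4 := hP (X C) hxE
    exact eq_parF hAn hpi h4.1 h1 (by rw [h4.2.1, h3])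
  · intro C hC D hD he
    obtain ⟨ρ, h1, h2, -, h3⟩ := hX C hC
    obtain ⟨ρ', h1', h2', -, h3'⟩ := hX D hD
    have he' := eq_solF hL hAn hpi h1 h1' (by rw [h3, h3', he])
    rw [h2, h2']
    refine image_congr (fun t ht => ?_)
    unfold curve
    rw [he' ht]

/-- monotonicity data along a family -/
lemma Hyp.mono (h : Hyp f g A) {m M : ℝ} (hd : ∀ p ∈ A, m ≤ dv f g p ∧ dv f g p ≤ M)
    {E : Set ℝ} {σ : ℝ → ℝ} {φ : ℝ → ℝ → ℝ}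
    (hE : ∀ x ∈ E, IsClF (2 * Real.pi) (reg A) (sc f g) (σ x) (φ x) ∧ φ x 0 = x)
    {x y : ℝ} (hx : x ∈ E) (hy : y ∈ E) (hxy : x ≤ y) :
    area (φ x) ≤ area (φ y) ∧ (M - σ x) * area (φ x) ≤ (M - σ y) * area (φ y) ∧
      (σ x - m) * area (φ x) ≤ (σ y - m) * area (φ y) := by
  rcases hxy.eq_or_lt with rfl | hlt
  · exact ⟨le_rfl, le_rfl, le_rfl⟩
  · have h0 : φ x 0 < φ y 0 := by rw [(hE x hx).2, (hE y hy).2]; exact hlt
    have ho := ordF (lipF_sc h.cf h.cg h.ord h.pos _) (antiF_sc h.pos _) (hE x hx).1 (hE y hy).1 h0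
    have ha := area_lt (hE x hx).1.cont (hE y hy).1.cont ho
    have hc := h.compare hd (hE x hx).1 (hE y hy).1 (fun t ht => (ho t ht).le)
    refine ⟨ha.le, ?_, ?_⟩
    · linarith [hc.2]
    · linarith [hc.1]

/-- **The mean number of the closed orbits in an annular region.** -/
theorem Hyp.annulus (h : Hyp f g A) {m M r R : ℝ} (hmM : m < M) (hr : 0 < r)
    (hd : ∀ p ∈ A, m ≤ dv f g p ∧ dv f g p ≤ M)
    (hrR : ∀ p ∈ A, r ^ 2 ≤ p.1 ^ 2 + p.2 ^ 2 ∧ p.1 ^ 2 + p.2 ^ 2 ≤ R ^ 2) (hR : 0 < R) :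
    ∃ G : ℝ → ℝ≥0∞, Measurable G ∧
      (∀ s ∈ Icc m M, ((closedOrbitsIn (fam f g s) A).encard : ℝ≥0∞) ≤ G s) ∧
      ∫⁻ s, G s ≤ ENNReal.ofReal ((M - m) * (Real.log (R / r) + 1 / 4)) := by
  have hpi := Real.two_pi_pos
  have hB : ∀ (E : Set ℝ) (σ : ℝ → ℝ) (φ : ℝ → ℝ → ℝ),
      (∀ x ∈ E, IsClF (2 * Real.pi) (reg A) (sc f g) (σ x) (φ x) ∧ φ x 0 = x ∧
        σ x ∈ Icc m M) →
      eVariationOn σ E ≤ ENNReal.ofReal ((M - m) * (Real.log (R / r) + 1 / 4)) := by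
    intro E σ φ hE
    have h1 := var_area (σ := σ) (α := fun x => area (φ x)) (E := E) hmM
      (a := Real.pi * r ^ 2) (b := Real.pi * R ^ 2) (by positivity)
      (fun x hx => (hE x hx).2.2) (fun x hx => ?_)
      (fun x hx y hy hxy => h.mono hd (fun x hx => ⟨(hE x hx).1, (hE x hx).2.1⟩) hx hy hxy)
    · refine h1.trans (ENNReal.ofReal_le_ofReal (le_of_eq ?_))
      have e1 : Real.pi * R ^ 2 / (Real.pi * r ^ 2) = (R / r) ^ 2 := by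
        have := Real.pi_pos
        field_simp
      rw [e1, Real.log_pow]
      push_cast
      ring
    · refine area_mem (hE x hx).1.cont (fun t ht => ?_) hr
      have h2 := hrR _ ((hE x hx).1.mem t ht)
      rw [pt_sq, two_mul, Real.exp_add, ← sq] at h2
      exact ⟨(pow_le_pow_iff_left₀ hr.le (Real.exp_pos _).le two_ne_zero).1 h2.1,
        (pow_le_pow_iff_left₀ (Real.exp_pos _).le hR.le two_ne_zero).1 h2.2⟩
  obtain ⟨G, hGm, hG, hGi⟩ := h.majorantQ (fun s _ => s ∈ Icc m M)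
    (B := ENNReal.ofReal ((M - m) * (Real.log (R / r) + 1 / 4))) hB
  refine ⟨G, hGm, fun s hs => ?_, hGi⟩
  refine le_trans (ENat.toENNReal_le.2 (Set.encard_le_encard ?_)) (hG s)
  intro C hC
  obtain ⟨ρ, h1, h2⟩ := orbit_sc h.cf h.cg h.ord h.pos hC
  exact ⟨ρ, h1, h2, hs⟩

end Pool.Agent.Q62.HN
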