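import Mathlib
import Pool.Agent.Q62.HN.Main

/-! The mean number of closed orbits in a disc about an equilibrium. -/

open Set MeasureTheory Topology Filter
open scoped ENNReal NNReal

namespace Pool.Agent.Q62.HN

open Pool.Agent.TH525.PU

variable {f g : ℝ × ℝ → ℝ}

/-- the punctured closed disc -/
def pd (R : ℝ) : Set (ℝ × ℝ) := {p | 0 < p.1 ^ 2 + p.2 ^ 2 ∧ p.1 ^ 2 + p.2 ^ 2 ≤ R ^ 2}

lemma reg_pd {R : ℝ} (hR : 0 < R) (t : ℝ) : reg (pd R) t = Iic (Real.log R) := by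
  ext x
  show (0 < (pt t x).1 ^ 2 + (pt t x).2 ^ 2 ∧ (pt t x).1 ^ 2 + (pt t x).2 ^ 2 ≤ R ^ 2) ↔ _
  rw [pt_sq, two_mul, Real.exp_add, ← sq, mem_Iic]
  constructor
  · rintro ⟨-, h⟩
    have := (pow_le_pow_iff_left₀ (Real.exp_pos _).le hR.le two_ne_zero).1 h
    exact (Real.le_log_iff_exp_le hR).2 this
  · intro h
    have := (Real.le_log_iff_exp_le hR).1 h
    exact ⟨by positivity, pow_le_pow_left₀ (Real.exp_pos _).le this 2⟩

/-- the flux through small circles tends to zero -/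
lemma flux_small (hf : ContDiff ℝ 1 f) (hg : ContDiff ℝ 1 g) :
    ∃ B : ℝ, 0 ≤ B ∧ ∀ ε : ℝ, 0 < ε → ε ≤ 1 →
      |flux f g (fun _ => Real.log ε) (fun _ => 0)| ≤ B * ε := by
  have hc : IsCompact (Icc (-1:ℝ) 1 ×ˢ Icc (-1:ℝ) 1) := isCompact_Icc.prod isCompact_Icc
  obtain ⟨B₁, h₁⟩ := hc.exists_bound_of_continuousOn hf.continuous.continuousOn
  obtain ⟨B₂, h₂⟩ := hc.exists_bound_of_continuousOn hg.continuous.continuousOn
  have hB₁ : 0 ≤ B₁ := (norm_nonneg _).trans (h₁ (0, 0) (by simp))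
  have hB₂ : 0 ≤ B₂ := (norm_nonneg _).trans (h₂ (0, 0) (by simp))
  have hpi := Real.two_pi_pos
  refine ⟨(B₁ + B₂) * (2 * Real.pi), by positivity, fun ε hε hε1 => ?_⟩
  unfold flux
  have hb : ∀ t ∈ uIoc 0 (2 * Real.pi), ‖fl f g t (Real.log ε) 0‖ ≤ (B₁ + B₂) * ε := by
    intro t _
    have hp1 : |(pt t (Real.log ε)).1| ≤ ε := by
      simp only [pt]
      rw [Real.exp_log hε, abs_mul, abs_of_pos hε]
      nlinarith [Real.abs_cos_le_one t]
    have hp2 : |(pt t (Real.log ε)).2| ≤ ε := by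
      simp only [pt]
      rw [Real.exp_log hε, abs_mul, abs_of_pos hε]
      nlinarith [Real.abs_sin_le_one t]
    have hmem : pt t (Real.log ε) ∈ Icc (-1:ℝ) 1 ×ˢ Icc (-1:ℝ) 1 := by
      refine ⟨?_, ?_⟩
      · have := abs_le.1 (hp1.trans hε1); exact ⟨this.1, this.2⟩
      · have := abs_le.1 (hp2.trans hε1); exact ⟨this.1, this.2⟩
    have hF := h₁ _ hmem
    have hG := h₂ _ hmem
    simp only [fl, zero_mul, sub_zero, rad]
    rw [Real.norm_eq_abs]
    refine (abs_add_le _ _).trans ?_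
    rw [abs_mul, abs_mul]
    have e1 : |(pt t (Real.log ε)).1| * |f (pt t (Real.log ε))| ≤ ε * B₁ :=
      mul_le_mul hp1 hF (abs_nonneg _) hε.le
    have e2 : |(pt t (Real.log ε)).2| * |g (pt t (Real.log ε))| ≤ ε * B₂ :=
      mul_le_mul hp2 hG (abs_nonneg _) hε.le
    linarith
  have := intervalIntegral.norm_integral_le_of_norm_le_const hb
  rw [Real.norm_eq_abs, sub_zero, abs_of_pos hpi] at this
  linarith

lemma area_const {ε : ℝ} (hε : 0 < ε) : area (fun _ => Real.log ε) = Real.pi * ε ^ 2 := by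
  unfold area
  rw [intervalIntegral.integral_const, two_mul (Real.log ε), Real.exp_add, Real.exp_log hε,
    smul_eq_mul]
  ring

/-- the parameter of a closed orbit is the mean value of the divergence inside it -/
theorem param_mem {R : ℝ} (hR : 0 < R) (h : Hyp f g (pd R)) {s : ℝ} {ρ : ℝ → ℝ}
    (hρ : IsClF (2 * Real.pi) (reg (pd R)) (sc f g) s ρ) {m M : ℝ}
    (hd : ∀ t ∈ Icc 0 (2 * Real.pi), ∀ u ≤ ρ t,
      m ≤ dv f g (pt t u) ∧ dv f g (pt t u) ≤ M) : s ∈ Icc m M := by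
  have hpi := Real.two_pi_pos
  obtain ⟨B, hB, hfl⟩ := flux_small h.cf h.cg
  obtain ⟨t₁, ht₁, hmin⟩ := (isCompact_Icc (a := (0:ℝ)) (b := 2 * Real.pi)).exists_isMinOn
    (nonempty_Icc.2 hpi.le) hρ.cont
  set ε₀ : ℝ := min 1 (Real.exp (ρ t₁)) with hε₀
  have hε₀p : 0 < ε₀ := lt_min one_pos (Real.exp_pos _)
  have key : ∀ ε ∈ Ioc 0 ε₀, m * (area ρ - Real.pi * ε ^ 2) ≤ s * area ρ + B * ε ∧
      s * area ρ - B * ε ≤ M * (area ρ - Real.pi * ε ^ 2) := by
    intro ε hε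
    have hlog : Real.log ε ≤ ρ t₁ := by
      rw [Real.log_le_iff_le_exp hε.1]
      exact hε.2.trans (min_le_right _ _)
    have hle : ∀ t ∈ Icc 0 (2 * Real.pi), Real.log ε ≤ ρ t := fun t ht => hlog.trans (hmin ht)
    have hpair : Pair (2 * Real.pi) (fun _ => Real.log ε) ρ (fun _ => 0)
        (fun t => sc f g s t (ρ t)) :=
      ⟨continuousOn_const, h.contr hρ, fun t _ => hasDerivWithinAt_const _ _ _, hρ.deriv⟩
    have h1 := flux_ineq h.cf h.cg hpair rfl hρ.closed hle (m := m) (M := M)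
      (fun t ht u hu => hd t ht u hu.2)
    rw [h.flux_sc hρ, area_const hε.1] at h1
    have h2 := abs_le.1 (hfl ε hε.1 (hε.2.trans (min_le_left _ _)))
    constructor
    · linarith [h1.1, h2.1, h2.2]
    · linarith [h1.2, h2.1, h2.2]
  have hAp : 0 < area ρ := by
    have h1 := area_mem hρ.cont (a := Real.exp (ρ t₁)) (b := R) (fun t ht => ?_) (Real.exp_pos _)
    · have := Real.exp_pos (ρ t₁)
      exact lt_of_lt_of_le (by positivity) h1.1
    · refine ⟨Real.exp_le_exp.2 (hmin ht), ?_⟩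
      have h2 := hρ.mem t ht
      rw [reg_pd hR] at h2
      exact (Real.le_log_iff_exp_le hR).1 h2
  have hev : ∀ᶠ ε in 𝓝[>] (0:ℝ), ε ∈ Ioc 0 ε₀ := Ioc_mem_nhdsGT hε₀p
  have lim1 : Tendsto (fun ε : ℝ => m * (area ρ - Real.pi * ε ^ 2)) (𝓝[>] 0)
      (𝓝 (m * area ρ)) := by
    have : Tendsto (fun ε : ℝ => m * (area ρ - Real.pi * ε ^ 2)) (𝓝 0)
      (𝓝 (m * (area ρ - Real.pi * 0 ^ 2))) := by
      apply Continuous.tendsto; fun_prop
    simp only [ne_eq, OfNat.ofNat_ne_zero, not_false_eq_true, zero_pow, mul_zero, sub_zero] at this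
    exact this.mono_left nhdsWithin_le_nhds
  have lim2 : Tendsto (fun ε : ℝ => M * (area ρ - Real.pi * ε ^ 2)) (𝓝[>] 0)
      (𝓝 (M * area ρ)) := by
    have : Tendsto (fun ε : ℝ => M * (area ρ - Real.pi * ε ^ 2)) (𝓝 0)
      (𝓝 (M * (area ρ - Real.pi * 0 ^ 2))) := by
      apply Continuous.tendsto; fun_prop
    simp only [ne_eq, OfNat.ofNat_ne_zero, not_false_eq_true, zero_pow, mul_zero, sub_zero] at this
    exact this.mono_left nhdsWithin_le_nhds
  have lim3 : Tendsto (fun ε : ℝ => s * area ρ + B * ε) (𝓝[>] 0) (𝓝 (s * area ρ)) := by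
    have : Tendsto (fun ε : ℝ => s * area ρ + B * ε) (𝓝 0) (𝓝 (s * area ρ + B * 0)) := by
      apply Continuous.tendsto; fun_prop
    simp only [mul_zero, add_zero] at this
    exact this.mono_left nhdsWithin_le_nhds
  have lim4 : Tendsto (fun ε : ℝ => s * area ρ - B * ε) (𝓝[>] 0) (𝓝 (s * area ρ)) := by
    have : Tendsto (fun ε : ℝ => s * area ρ - B * ε) (𝓝 0) (𝓝 (s * area ρ - B * 0)) := by
      apply Continuous.tendsto; fun_prop
    simp only [mul_zero, sub_zero] at this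
    exact this.mono_left nhdsWithin_le_nhds
  have i1 : m * area ρ ≤ s * area ρ :=
    le_of_tendsto_of_tendsto lim1 lim3 (hev.mono fun ε hε => (key ε hε).1)
  have i2 : s * area ρ ≤ M * area ρ :=
    le_of_tendsto_of_tendsto lim4 lim2 (hev.mono fun ε hε => (key ε hε).2)
  exact ⟨le_of_mul_le_mul_right i1 hAp, le_of_mul_le_mul_right i2 hAp⟩

/-- the largest distance in terms of the area -/
lemma radius_le {ρ : ℝ → ℝ} {r : ℝ → ℝ} {Q : ℝ} (hQ : 0 ≤ Q)
    (hd : ∀ t ∈ Icc 0 (2 * Real.pi), HasDerivWithinAt ρ (r t) (Icc 0 (2 * Real.pi)) t)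
    (hb : ∀ t ∈ Icc 0 (2 * Real.pi), |r t| ≤ Q) {t : ℝ} (ht : t ∈ Icc 0 (2 * Real.pi)) :
    Real.exp (ρ t) ≤ Real.exp (2 * Real.pi * Q) / Real.sqrt Real.pi * Real.sqrt (area ρ) := by
  have hpi := Real.two_pi_pos
  have hc : ContinuousOn ρ (Icc 0 (2 * Real.pi)) := fun t ht => (hd t ht).continuousWithinAt
  have hlow : ∀ x ∈ Icc 0 (2 * Real.pi), ρ t - 2 * Real.pi * Q ≤ ρ x := by
    intro x hx
    have h1 := (convex_Icc 0 (2 * Real.pi)).norm_image_sub_le_of_norm_hasDerivWithin_le hd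
      (fun x hx => hb x hx) ht hx
    have h2 := abs_le.1 h1
    have h3 : ‖x - t‖ ≤ 2 * Real.pi := by
      rw [Real.norm_eq_abs, abs_le]
      constructor <;> linarith [hx.1, hx.2, ht.1, ht.2]
    have h4 : Q * ‖x - t‖ ≤ 2 * Real.pi * Q := by
      rw [mul_comm (2 * Real.pi) Q]
      exact mul_le_mul_of_nonneg_left h3 hQ
    linarith [h2.1]
  obtain ⟨t₂, ht₂, hmax⟩ := (isCompact_Icc (a := (0:ℝ)) (b := 2 * Real.pi)).exists_isMaxOn
    (nonempty_Icc.2 hpi.le) hc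
  have h5 := (area_mem hc (a := Real.exp (ρ t - 2 * Real.pi * Q)) (b := Real.exp (ρ t₂))
    (fun x hx => ⟨Real.exp_le_exp.2 (hlow x hx), Real.exp_le_exp.2 (hmax hx)⟩)
    (Real.exp_pos _)).1
  have h6 : Real.sqrt (Real.pi * Real.exp (ρ t - 2 * Real.pi * Q) ^ 2) ≤ Real.sqrt (area ρ) :=
    Real.sqrt_le_sqrt h5
  rw [Real.sqrt_mul Real.pi_pos.le, Real.sqrt_sq (Real.exp_pos _).le, Real.exp_sub] at h6
  have hsp : 0 < Real.sqrt Real.pi := Real.sqrt_pos.2 Real.pi_pos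
  have he := Real.exp_pos (2 * Real.pi * Q)
  calc Real.exp (ρ t) = Real.exp (2 * Real.pi * Q) / Real.sqrt Real.pi *
        (Real.sqrt Real.pi * (Real.exp (ρ t) / Real.exp (2 * Real.pi * Q))) := by
        field_simp
    _ ≤ _ := mul_le_mul_of_nonneg_left h6 (by positivity)

/-- **The variation over the small closed orbits.** -/
theorem var_small {R : ℝ} (hR : 0 < R) (h : Hyp f g (pd R)) {Q L a : ℝ} (hQ : 0 ≤ Q) (hL : 0 ≤ L)
    (hLip : ∀ p ∈ pd R, |dv f g p - dv f g (0, 0)| ≤ L * Real.sqrt (p.1 ^ 2 + p.2 ^ 2))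
    {E : Set ℝ} {σ : ℝ → ℝ} {φ : ℝ → ℝ → ℝ}
    (hE : ∀ x ∈ E, IsClF (2 * Real.pi) (reg (pd R)) (sc f g) (σ x) (φ x) ∧ φ x 0 = x)
    (hQb : ∀ x ∈ E, ∀ t ∈ Icc 0 (2 * Real.pi), |sc f g (σ x) t (φ x t)| ≤ Q)
    (ha : ∀ x ∈ E, area (φ x) ≤ a) :
    eVariationOn σ E ≤ ENNReal.ofReal
      (4 * L * (Real.exp (2 * Real.pi * Q) / Real.sqrt Real.pi) * Real.sqrt a) := by
  have hpi := Real.two_pi_pos
  set κ : ℝ := Real.exp (2 * Real.pi * Q) / Real.sqrt Real.pi with hκ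
  have hκp : 0 < κ := div_pos (Real.exp_pos _) (Real.sqrt_pos.2 Real.pi_pos)
  -- bound of the divergence inside
  have hdiv : ∀ x ∈ E, ∀ t ∈ Icc 0 (2 * Real.pi), ∀ u ≤ φ x t,
      dv f g (0, 0) - L * κ * Real.sqrt (area (φ x)) ≤ dv f g (pt t u) ∧
      dv f g (pt t u) ≤ dv f g (0, 0) + L * κ * Real.sqrt (area (φ x)) := by
    intro x hx t ht u hu
    have h1 := (hE x hx).1.mem t ht
    rw [reg_pd hR] at h1
    have h2 : pt t u ∈ pd R := by
      have : u ∈ reg (pd R) t := by rw [reg_pd hR]; exact hu.trans h1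
      exact this
    have h3 := abs_le.1 (hLip _ h2)
    have h4 : Real.sqrt ((pt t u).1 ^ 2 + (pt t u).2 ^ 2) ≤ κ * Real.sqrt (area (φ x)) := by
      rw [pt_sq, two_mul, Real.exp_add, ← sq, Real.sqrt_sq (Real.exp_pos _).le]
      exact (Real.exp_le_exp.2 hu).trans (radius_le hQ (hE x hx).1.deriv (hQb x hx) ht)
    have h5 := mul_le_mul_of_nonneg_left h4 hL
    constructor
    · linarith [h3.1]
    · linarith [h3.2]
  have hAnn : ∀ x ∈ E, 0 ≤ area (φ x) := by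
    intro x hx
    unfold area
    refine intervalIntegral.integral_nonneg hpi.le (fun t _ => ?_)
    positivity
  refine var_le_of_pair (w := fun x => 4 * L * κ * Real.sqrt (area (φ x)))
    (fun x hx y hy hxy => ?_) (fun x hx y hy => ?_)
  · rcases hxy.eq_or_lt with rfl | hlt
    · simp
    · have h0 : φ x 0 < φ y 0 := by rw [(hE x hx).2, (hE y hy).2]; exact hlt
      have ho := ordF (lipF_sc h.cf h.cg h.ord h.pos _) (antiF_sc h.pos _) (hE x hx).1
        (hE y hy).1 h0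
      have hAlt := area_lt (hE x hx).1.cont (hE y hy).1.cont ho
      have hfl := flux_ineq h.cf h.cg (h.pair (hE x hx).1 (hE y hy).1) (hE x hx).1.closed
        (hE y hy).1.closed (fun t ht => (ho t ht).le)
        (m := dv f g (0, 0) - L * κ * Real.sqrt (area (φ y)))
        (M := dv f g (0, 0) + L * κ * Real.sqrt (area (φ y)))
        (fun t ht u hu => hdiv y hy t ht u hu.2)
      rw [h.flux_sc (hE x hx).1, h.flux_sc (hE y hy).1] at hfl
      have hsx := param_mem hR h (hE x hx).1 (hdiv x hx)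
      set α := area (φ x) with hα
      set β := area (φ y) with hβ
      obtain ⟨u, hu⟩ : ∃ u, u = Real.sqrt α := ⟨_, rfl⟩
      obtain ⟨v, hv⟩ : ∃ v, v = Real.sqrt β := ⟨_, rfl⟩
      have hu0 : 0 ≤ u := hu ▸ Real.sqrt_nonneg _
      have huv : u < v := by rw [hu, hv]; exact Real.sqrt_lt_sqrt (hAnn x hx) hAlt
      have hv0 : 0 < v := hu0.trans_lt huv
      have eα : α = u ^ 2 := by rw [hu, Real.sq_sqrt (hAnn x hx)]
      have eβ : β = v ^ 2 := by rw [hv, Real.sq_sqrt (hAnn y hy)]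
      rw [← hu, ← hv]
      rw [← hv, eα, eβ] at hfl
      rw [← hu] at hsx
      have hLκ : 0 ≤ L * κ := mul_nonneg hL hκp.le
      obtain ⟨K, hK⟩ : ∃ K, K = L * κ := ⟨_, rfl⟩
      rw [← hK] at hfl hsx hLκ
      obtain ⟨d, hdd⟩ : ∃ d, d = dv f g (0, 0) := ⟨_, rfl⟩
      rw [← hdd] at hfl hsx
      have e4 : 4 * L * κ * v - 4 * L * κ * u = 4 * K * (v - u) := by rw [hK]; ring
      rw [e4]
      -- `|σ y - σ x| v² ≤ 2 K v (v² - u²)`
      have hKuv : K * u ≤ K * v := mul_le_mul_of_nonneg_left huv.le hLκ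
      have hdpos : 0 ≤ v ^ 2 - u ^ 2 := by nlinarith
      have hup : (σ y - σ x) * v ^ 2 ≤ 2 * (K * v) * (v ^ 2 - u ^ 2) := by
        have h1 := hfl.2
        have h2 : (d - K * v) * (v ^ 2 - u ^ 2) ≤ σ x * (v ^ 2 - u ^ 2) :=
          mul_le_mul_of_nonneg_right (by linarith [hsx.1]) hdpos
        nlinarith
      have hlo : -(2 * (K * v) * (v ^ 2 - u ^ 2)) ≤ (σ y - σ x) * v ^ 2 := by
        have h1 := hfl.1
        have h2 : σ x * (v ^ 2 - u ^ 2) ≤ (d + K * v) * (v ^ 2 - u ^ 2) :=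
          mul_le_mul_of_nonneg_right (by linarith [hsx.2]) hdpos
        nlinarith
      have hfin : 2 * (K * v) * (v ^ 2 - u ^ 2) ≤ 4 * K * (v - u) * v ^ 2 := by
        have h3 : v ^ 2 - u ^ 2 ≤ 2 * v * (v - u) := by nlinarith
        calc 2 * (K * v) * (v ^ 2 - u ^ 2) ≤ 2 * (K * v) * (2 * v * (v - u)) :=
              mul_le_mul_of_nonneg_left h3 (by positivity)
          _ = _ := by ring
      have hv2 : 0 < v ^ 2 := by positivity
      rw [abs_le]
      constructor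
      · have : -(4 * K * (v - u)) * v ^ 2 ≤ (σ y - σ x) * v ^ 2 := by linarith
        exact le_of_mul_le_mul_right this hv2
      · have : (σ y - σ x) * v ^ 2 ≤ (4 * K * (v - u)) * v ^ 2 := by linarith
        exact le_of_mul_le_mul_right this hv2
  · have h1 : Real.sqrt (area (φ y)) ≤ Real.sqrt a := Real.sqrt_le_sqrt (ha y hy)
    have h2 := Real.sqrt_nonneg (area (φ x))
    have h3 : 0 ≤ 4 * L * κ := by positivity
    have h4 := mul_le_mul_of_nonneg_left h1 h3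
    have h5 := mul_nonneg h3 h2
    linarith

/-- **The mean number of the closed orbits in a disc about an equilibrium**, for `C¹` fields. -/
theorem disc_gen {R : ℝ} (hR : 0 < R) (h : Hyp f g (pd R)) {m M Q L a : ℝ} (hmM : m < M)
    (hd : ∀ p ∈ pd R, m ≤ dv f g p ∧ dv f g p ≤ M) (hQ : 0 ≤ Q) (hL : 0 ≤ L)
    (hLip : ∀ p ∈ pd R, |dv f g p - dv f g (0, 0)| ≤ L * Real.sqrt (p.1 ^ 2 + p.2 ^ 2))
    (hsl : ∀ s ∈ Icc m M, ∀ p ∈ pd R, |rad f g p - s / 2 * (p.1 ^ 2 + p.2 ^ 2)| ≤ Q * ang f g p)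
    (ha : 0 < a) :
    (∀ s ∉ Icc m M, closedOrbitsIn (fam f g s) (pd R) = ∅) ∧
    ∃ G : ℝ → ℝ≥0∞, Measurable G ∧
      (∀ s, ((closedOrbitsIn (fam f g s) (pd R)).encard : ℝ≥0∞) ≤ G s) ∧
      ∫⁻ s, G s ≤ ENNReal.ofReal ((M - m) / 2 * (Real.log (Real.pi * R ^ 2 / a) + 1 / 2)) +
        ENNReal.ofReal
          (4 * L * (Real.exp (2 * Real.pi * Q) / Real.sqrt Real.pi) * Real.sqrt a) := by
  have hpi := Real.two_pi_pos
  have hin : ∀ {s : ℝ} {ρ : ℝ → ℝ}, IsClF (2 * Real.pi) (reg (pd R)) (sc f g) s ρ →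
      s ∈ Icc m M := by
    intro s ρ hρ
    refine param_mem hR h hρ (fun t ht u hu => hd _ ?_)
    have h1 := hρ.mem t ht
    rw [reg_pd hR] at h1
    have : u ∈ reg (pd R) t := by rw [reg_pd hR]; exact hu.trans h1
    exact this
  refine ⟨fun s hs => ?_, ?_⟩
  · by_contra hne
    obtain ⟨C, hC⟩ := Set.nonempty_iff_ne_empty.2 hne
    obtain ⟨ρ, hρ, -⟩ := orbit_sc h.cf h.cg h.ord h.pos hC
    exact hs (hin hρ)
  · have hB1 : ∀ (E : Set ℝ) (σ : ℝ → ℝ) (φ : ℝ → ℝ → ℝ),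
        (∀ x ∈ E, IsClF (2 * Real.pi) (reg (pd R)) (sc f g) (σ x) (φ x) ∧ φ x 0 = x ∧
          a ≤ area (φ x)) →
        eVariationOn σ E ≤
          ENNReal.ofReal ((M - m) / 2 * (Real.log (Real.pi * R ^ 2 / a) + 1 / 2)) := by
      intro E σ φ hE
      refine var_area (α := fun x => area (φ x)) hmM ha (fun x hx => hin (hE x hx).1)
        (fun x hx => ⟨(hE x hx).2.2, ?_⟩)
        (fun x hx y hy hxy => h.mono hd (fun x hx => ⟨(hE x hx).1, (hE x hx).2.1⟩) hx hy hxy)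
      obtain ⟨t₁, ht₁, hmin⟩ := (isCompact_Icc (a := (0:ℝ)) (b := 2 * Real.pi)).exists_isMinOn
        (nonempty_Icc.2 hpi.le) (hE x hx).1.cont
      refine (area_mem (hE x hx).1.cont (a := Real.exp (φ x t₁)) (fun t ht => ?_)
        (Real.exp_pos _)).2
      refine ⟨Real.exp_le_exp.2 (hmin ht), ?_⟩
      have h2 := (hE x hx).1.mem t ht
      rw [reg_pd hR] at h2
      exact (Real.le_log_iff_exp_le hR).1 h2
    have hB2 : ∀ (E : Set ℝ) (σ : ℝ → ℝ) (φ : ℝ → ℝ → ℝ),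
        (∀ x ∈ E, IsClF (2 * Real.pi) (reg (pd R)) (sc f g) (σ x) (φ x) ∧ φ x 0 = x ∧
          area (φ x) ≤ a) →
        eVariationOn σ E ≤ ENNReal.ofReal
          (4 * L * (Real.exp (2 * Real.pi * Q) / Real.sqrt Real.pi) * Real.sqrt a) := by
      intro E σ φ hE
      refine var_small hR h hQ hL hLip (fun x hx => ⟨(hE x hx).1, (hE x hx).2.1⟩)
        (fun x hx t ht => ?_) (fun x hx => (hE x hx).2.2)
      have hp := (hE x hx).1.mem t ht
      have h1 := hsl _ (hin (hE x hx).1) _ hp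
      have h2 := h.pos _ hp
      rw [pt_sq] at h1
      unfold sc
      rw [abs_div, abs_of_pos h2, div_le_iff₀ h2]
      exact h1
    obtain ⟨G₁, hm₁, hG₁, hi₁⟩ := h.majorantQ (fun _ ρ => a ≤ area ρ) hB1
    obtain ⟨G₂, hm₂, hG₂, hi₂⟩ := h.majorantQ (fun _ ρ => area ρ ≤ a) hB2
    refine ⟨fun s => G₁ s + G₂ s, hm₁.add hm₂, fun s => ?_, ?_⟩
    · have hsub : closedOrbitsIn (fam f g s) (pd R) ⊆
          orbs f g (pd R) (fun _ ρ => a ≤ area ρ) s ∪ orbs f g (pd R) (fun _ ρ => area ρ ≤ a) s := by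
        intro C hC
        obtain ⟨ρ, h1, h2⟩ := orbit_sc h.cf h.cg h.ord h.pos hC
        rcases le_total a (area ρ) with h3 | h3
        · exact Or.inl ⟨ρ, h1, h2, h3⟩
        · exact Or.inr ⟨ρ, h1, h2, h3⟩
      have h4 := (Set.encard_le_encard hsub).trans (Set.encard_union_le _ _)
      have h5 := ENat.toENNReal_le.2 h4
      rw [ENat.toENNReal_add] at h5
      exact h5.trans (add_le_add (hG₁ s) (hG₂ s))
    · rw [lintegral_add_left hm₁]
      exact add_le_add hi₁ hi₂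

end Pool.Agent.Q62.HN
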