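import Mathlib
import Pool.Agent.Q62.HN.Bern
import Pool.Agent.Q62.HN.Disc

/-! Polynomial vector fields: the Lipschitz bound of the divergence in the middle of a disc. -/

open Set MeasureTheory Topology Filter
open scoped ENNReal NNReal

namespace Pool.Agent.Q62.HN

open Pool.Agent.TH525.PU

/-- value of a polynomial -/
noncomputable def val (F : MvPolynomial (Fin 2) ℝ) (p : ℝ × ℝ) : ℝ :=
  MvPolynomial.eval ![p.1, p.2] F

lemma val_contDiff (F : MvPolynomial (Fin 2) ℝ) : ContDiff ℝ 1 (val F) :=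
  evalH_contDiff F contDiff_fst contDiff_snd

lemma val_fderiv (F : MvPolynomial (Fin 2) ℝ) (p : ℝ × ℝ) :
    HasFDerivAt (val F) (val (MvPolynomial.pderiv 0 F) p • ContinuousLinearMap.fst ℝ ℝ ℝ +
      val (MvPolynomial.pderiv 1 F) p • ContinuousLinearMap.snd ℝ ℝ ℝ) p := by
  induction F using MvPolynomial.induction_on with
  | C a =>
    have h : val (MvPolynomial.C a) = fun _ => a := by funext q; simp [val]
    rw [h]
    have h2 : (val (MvPolynomial.pderiv 0 (MvPolynomial.C a)) p • ContinuousLinearMap.fst ℝ ℝ ℝ +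
      val (MvPolynomial.pderiv 1 (MvPolynomial.C a)) p • ContinuousLinearMap.snd ℝ ℝ ℝ) = 0 := by
      simp [val]
    rw [h2]
    exact hasFDerivAt_const a p
  | add P Q hP hQ =>
    have h : val (P + Q) = fun q => val P q + val Q q := by funext q; simp [val]
    rw [h]
    refine (hP.add hQ).congr_fderiv ?_
    ext <;> simp [val]
  | mul_X P i hP =>
    fin_cases i
    · have h : val (P * MvPolynomial.X 0) = fun q => val P q * q.1 := by
        funext q; simp [val]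
      show HasFDerivAt (val (P * MvPolynomial.X 0)) _ p
      rw [h]
      refine (hP.mul (hasFDerivAt_fst (𝕜 := ℝ) (p := p))).congr_fderiv ?_
      ext
      · simp [val, MvPolynomial.pderiv_X]
      · simp [val, MvPolynomial.pderiv_X]
    · have h : val (P * MvPolynomial.X 1) = fun q => val P q * q.2 := by
        funext q; simp [val]
      show HasFDerivAt (val (P * MvPolynomial.X 1)) _ p
      rw [h]
      refine (hP.mul (hasFDerivAt_snd (𝕜 := ℝ) (p := p))).congr_fderiv ?_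
      ext
      · simp [val, MvPolynomial.pderiv_X]
      · simp [val, MvPolynomial.pderiv_X]

lemma dv_val (F G : MvPolynomial (Fin 2) ℝ) (p : ℝ × ℝ) :
    dv (val F) (val G) p = val (MvPolynomial.pderiv 0 F + MvPolynomial.pderiv 1 G) p := by
  unfold dv
  rw [(val_fderiv F p).fderiv, (val_fderiv G p).fderiv]
  simp [val]

lemma pderiv_deg {F : MvPolynomial (Fin 2) ℝ} {n : ℕ} (hF : F.totalDegree ≤ n) (i : Fin 2) :
    (MvPolynomial.pderiv i F).totalDegree ≤ n := by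
  refine le_trans ?_ hF
  refine Finset.sup_le fun d hd => ?_
  have h1 : MvPolynomial.coeff d (MvPolynomial.pderiv i F) ≠ 0 := MvPolynomial.mem_support_iff.1 hd
  rw [MvPolynomial.coeff_pderiv] at h1
  have h2 : MvPolynomial.coeff (d + Finsupp.single i 1) F ≠ 0 := left_ne_zero_of_mul h1
  have h3 := MvPolynomial.le_totalDegree (MvPolynomial.mem_support_iff.2 h2)
  refine le_trans ?_ h3
  rw [Finsupp.sum_add_index' (fun _ => rfl) (fun _ _ _ => rfl)]
  exact Nat.le_add_right _ _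

/-- **Bernstein inequality in the middle of a disc.** -/
theorem lip_poly {H : MvPolynomial (Fin 2) ℝ} {n : ℕ} (hn : 0 < n) (hH : H.totalDegree ≤ n)
    {r m M : ℝ} (hr : 0 < r)
    (hb : ∀ p : ℝ × ℝ, p.1 ^ 2 + p.2 ^ 2 ≤ (2 * r) ^ 2 → m ≤ val H p ∧ val H p ≤ M)
    {p : ℝ × ℝ} (hp : p.1 ^ 2 + p.2 ^ 2 ≤ r ^ 2) :
    |val H p - val H (0, 0)| ≤ 7 * n * (M - m) / (4 * r) * Real.sqrt (p.1 ^ 2 + p.2 ^ 2) := by
  obtain ⟨ρ, hρ⟩ : ∃ ρ, ρ = Real.sqrt (p.1 ^ 2 + p.2 ^ 2) := ⟨_, rfl⟩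
  have hρ0 : 0 ≤ ρ := hρ ▸ Real.sqrt_nonneg _
  have hρsq : ρ ^ 2 = p.1 ^ 2 + p.2 ^ 2 := by rw [hρ, Real.sq_sqrt (by positivity)]
  have hρr : ρ ≤ r := by
    rw [hρ]
    exact Real.sqrt_le_iff.2 ⟨hr.le, hp⟩
  obtain ⟨t, ht1, ht2⟩ : ∃ t : ℝ, p.1 = ρ * Real.cos t ∧ p.2 = ρ * Real.sin t := by
    have h1 := Complex.norm_mul_cos_arg (⟨p.1, p.2⟩ : ℂ)
    have h2 := Complex.norm_mul_sin_arg (⟨p.1, p.2⟩ : ℂ)
    have h3 : ‖(⟨p.1, p.2⟩ : ℂ)‖ = ρ := by
      rw [hρ, Complex.norm_def, Complex.normSq_apply]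
      congr 1
      simp only
      ring
    rw [h3] at h1 h2
    exact ⟨_, h1.symm, h2.symm⟩
  set q : Polynomial ℝ := (rpoly H t).comp (Polynomial.C (2 * r) * Polynomial.X) -
    Polynomial.C ((M + m) / 2) with hq
  have hqev : ∀ x, q.eval x = val H (2 * r * x * Real.cos t, 2 * r * x * Real.sin t) -
      (M + m) / 2 := by
    intro x
    rw [hq, Polynomial.eval_sub, Polynomial.eval_comp, Polynomial.eval_mul, Polynomial.eval_C,
      Polynomial.eval_X, Polynomial.eval_C, rpoly_eval]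
    rfl
  have hqd : q.natDegree ≤ n := by
    rw [hq]
    refine (Polynomial.natDegree_sub_C).le.trans ?_
    refine Polynomial.natDegree_comp_le.trans ?_
    calc (rpoly H t).natDegree * (Polynomial.C (2 * r) * Polynomial.X).natDegree ≤ n * 1 :=
          Nat.mul_le_mul (rpoly_deg H hH t) ((Polynomial.natDegree_C_mul_le _ _).trans
            Polynomial.natDegree_X_le)
      _ = n := mul_one n
  have hU : ∀ x ∈ Icc (-1:ℝ) 1, |q.eval x| ≤ (M - m) / 2 := by
    intro x hx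
    rw [hqev]
    have h1 := hb (2 * r * x * Real.cos t, 2 * r * x * Real.sin t) (by
      have h2 : (2 * r * x * Real.cos t) ^ 2 + (2 * r * x * Real.sin t) ^ 2 = (2 * r * x) ^ 2 := by
        have := Real.sin_sq_add_cos_sq t
        linear_combination (2 * r * x) ^ 2 * this
      show (2 * r * x * Real.cos t) ^ 2 + (2 * r * x * Real.sin t) ^ 2 ≤ _
      rw [h2, mul_pow]
      have h3 : x ^ 2 ≤ 1 := by nlinarith [hx.1, hx.2]
      have h4 : 0 ≤ (2 * r) ^ 2 := by positivity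
      nlinarith)
    rw [abs_le]
    constructor <;> linarith [h1.1, h1.2]
  have hder : ∀ x ∈ Icc (-(1/2):ℝ) (1/2), |q.derivative.eval x| ≤ 7 * n * ((M - m) / 2) := by
    intro x hx
    exact bernstein_mid hn hqd hU (abs_le.2 hx)
  have hmv := (convex_Icc (-(1/2):ℝ) (1/2)).norm_image_sub_le_of_norm_hasDerivWithin_le
    (f := fun x => q.eval x) (f' := fun x => q.derivative.eval x) (C := 7 * n * ((M - m) / 2))
    (fun x _ => (q.hasDerivAt x).hasDerivWithinAt) (fun x hx => hder x hx)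
    (x := 0) (y := ρ / (2 * r)) ⟨by norm_num, by norm_num⟩
    ⟨by
      have : 0 ≤ ρ / (2 * r) := by positivity
      linarith, by
      rw [div_le_iff₀ (by positivity)]
      linarith⟩
  simp only [Real.norm_eq_abs] at hmv
  rw [hqev, hqev] at hmv
  have e1 : (2 * r * (ρ / (2 * r)) * Real.cos t, 2 * r * (ρ / (2 * r)) * Real.sin t) = p := by
    have : 2 * r * (ρ / (2 * r)) = ρ := by field_simp
    rw [this, ← ht1, ← ht2]
  have e2 : (2 * r * 0 * Real.cos t, 2 * r * 0 * Real.sin t) = ((0:ℝ), (0:ℝ)) := by simp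
  rw [e1, e2] at hmv
  have e3 : val H p - (M + m) / 2 - (val H (0, 0) - (M + m) / 2) = val H p - val H (0, 0) := by ring
  rw [e3, sub_zero, abs_of_nonneg (by positivity : (0:ℝ) ≤ ρ / (2 * r))] at hmv
  rw [← hρ]
  refine hmv.trans (le_of_eq ?_)
  field_simp
  ring

/-- **The mean number of closed orbits of a polynomial field grows at most like the logarithm of
the degree.** -/
theorem disc_poly {F G : MvPolynomial (Fin 2) ℝ} {n : ℕ} (hn : 0 < n) (hF : F.totalDegree ≤ n)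
    (hG : G.totalDegree ≤ n) {r : ℝ} (hr : 0 < r) (h : Hyp (val F) (val G) (pd r)) {m M Q : ℝ}
    (hmM : m < M)
    (hb : ∀ p : ℝ × ℝ, p.1 ^ 2 + p.2 ^ 2 ≤ (2 * r) ^ 2 →
      m ≤ dv (val F) (val G) p ∧ dv (val F) (val G) p ≤ M) (hQ : 0 ≤ Q)
    (hsl : ∀ s ∈ Icc m M, ∀ p ∈ pd r,
      |rad (val F) (val G) p - s / 2 * (p.1 ^ 2 + p.2 ^ 2)| ≤ Q * ang (val F) (val G) p) :
    (∀ s ∉ Icc m M, closedOrbitsIn (fam (val F) (val G) s) (pd r) = ∅) ∧
    ∃ N : ℝ → ℝ≥0∞, Measurable N ∧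
      (∀ s, ((closedOrbitsIn (fam (val F) (val G) s) (pd r)).encard : ℝ≥0∞) ≤ N s) ∧
      ∫⁻ s, N s ≤ ENNReal.ofReal ((M - m) * (Real.log n + 2 * Real.pi * Q + 7 / 2)) := by
  have hn' : (0:ℝ) < n := Nat.cast_pos.2 hn
  have hMm : 0 < M - m := sub_pos.2 hmM
  have hpi := Real.pi_pos
  have hsp : 0 < Real.sqrt Real.pi := Real.sqrt_pos.2 hpi
  have hspq : Real.sqrt Real.pi ^ 2 = Real.pi := Real.sq_sqrt hpi.le
  have hHd : (MvPolynomial.pderiv 0 F + MvPolynomial.pderiv 1 G).totalDegree ≤ n :=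
    (MvPolynomial.totalDegree_add _ _).trans (max_le (pderiv_deg hF 0) (pderiv_deg hG 1))
  have hlip : ∀ p ∈ pd r, |dv (val F) (val G) p - dv (val F) (val G) (0, 0)| ≤
      7 * n * (M - m) / (4 * r) * Real.sqrt (p.1 ^ 2 + p.2 ^ 2) := by
    intro p hp
    rw [dv_val, dv_val]
    refine lip_poly hn hHd hr (fun q hq => ?_) hp.2
    rw [← dv_val]
    exact hb q hq
  obtain ⟨E, hE⟩ : ∃ E, E = Real.exp (2 * Real.pi * Q) := ⟨_, rfl⟩
  have hEp : 0 < E := hE ▸ Real.exp_pos _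
  obtain ⟨w, hw⟩ : ∃ w, w = Real.sqrt Real.pi * r / (7 * n * E) := ⟨_, rfl⟩
  have hwp : 0 < w := by rw [hw]; positivity
  obtain ⟨h1, N, hN1, hN2, hN3⟩ := disc_gen hr h (Q := Q) (L := 7 * n * (M - m) / (4 * r))
    (a := w ^ 2) hmM
    (fun p hp => hb p (hp.2.trans (by nlinarith [sq_nonneg r]))) hQ (by positivity) hlip hsl
    (by positivity)
  refine ⟨h1, N, hN1, hN2, hN3.trans ?_⟩
  rw [Real.sqrt_sq hwp.le, ← hE]
  have e1 : Real.pi * r ^ 2 / w ^ 2 = (7 * n * E) ^ 2 := by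
    rw [hw, div_pow, mul_pow (Real.sqrt Real.pi), hspq]
    field_simp
  have e2 : Real.log ((7 * n * E) ^ 2) = 2 * (Real.log 7 + Real.log n + 2 * Real.pi * Q) := by
    rw [Real.log_pow, Real.log_mul (by positivity) hEp.ne', Real.log_mul (by norm_num) hn'.ne', hE,
      Real.log_exp]
    norm_num
  have e3 : 4 * (7 * n * (M - m) / (4 * r)) * (E / Real.sqrt Real.pi) * w = M - m := by
    rw [hw]
    field_simp
  have hlog7 : Real.log 7 ≤ 9 / 4 := by
    rw [Real.log_le_iff_le_exp (by norm_num)]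
    have h2 : (7:ℝ) ^ 4 ≤ Real.exp (9 / 4) ^ 4 := by
      rw [← Real.exp_nat_mul]
      have e : ((4:ℕ):ℝ) * (9 / 4) = 9 := by norm_num
      rw [e]
      have h3 : Real.exp 9 = Real.exp 1 ^ 9 := by rw [← Real.exp_nat_mul]; norm_num
      rw [h3]
      have h4 : (2.7:ℝ) ≤ Real.exp 1 := by linarith [Real.exp_one_gt_d9]
      calc (7:ℝ) ^ 4 ≤ 2.7 ^ 9 := by norm_num
        _ ≤ _ := pow_le_pow_left₀ (by norm_num) h4 9
    exact le_of_pow_le_pow_left₀ (by norm_num) (Real.exp_pos _).le h2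
  have hln : 0 ≤ Real.log n := Real.log_nonneg (by exact_mod_cast hn)
  have hpq : 0 ≤ 2 * Real.pi * Q := by positivity
  rw [e1, e2, e3, ← ENNReal.ofReal_add (mul_nonneg (by linarith) (by
    have : 0 ≤ Real.log 7 := Real.log_nonneg (by norm_num)
    linarith)) hMm.le]
  refine ENNReal.ofReal_le_ofReal ?_
  nlinarith

end Pool.Agent.Q62.HN
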