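import Mathlib
import Pool.Agent.Q62.HN.Poly

/-! Polynomial fields for which the number of closed orbits is of the order of the logarithm of the
degree, for all parameters in an interval. -/

open Set MeasureTheory Topology Filter
open scoped ENNReal NNReal

namespace Pool.Agent.Q62.HN

/-- alternating sums of a decreasing sequence -/
lemma alt_mem : ∀ (K : ℕ) (a : ℕ → ℝ), Antitone a → (∀ k, 0 ≤ a k) →
    -(a 0) ≤ ∑ k ∈ Finset.range K, (-1:ℝ) ^ (k + 1) * a k ∧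
      ∑ k ∈ Finset.range K, (-1:ℝ) ^ (k + 1) * a k ≤ 0
  | 0, a, _, h => by simpa using h 0
  | K + 1, a, ha, h => by
    have ih := alt_mem K (fun k => a (k + 1)) (fun i j hij => ha (by omega)) (fun k => h _)
    rw [Finset.sum_range_succ']
    have e : ∑ k ∈ Finset.range K, (-1:ℝ) ^ (k + 1 + 1) * a (k + 1) =
        -∑ k ∈ Finset.range K, (-1:ℝ) ^ (k + 1) * a (k + 1) := by
      rw [← Finset.sum_neg_distrib]
      refine Finset.sum_congr rfl fun k _ => ?_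
      ring
    rw [e]
    have h1 : a 1 ≤ a 0 := ha (by omega)
    have h2 : -(a 1) ≤ ∑ k ∈ Finset.range K, (-1:ℝ) ^ (k + 1) * a (k + 1) := ih.1
    have h3 : ∑ k ∈ Finset.range K, (-1:ℝ) ^ (k + 1) * a (k + 1) ≤ 0 := ih.2
    constructor
    · simp only [zero_add, pow_one]
      linarith
    · simp only [zero_add, pow_one]
      linarith

/-- the lacunary alternating sum -/
noncomputable def gk (K : ℕ) (x : ℝ) : ℝ :=
  ∑ k ∈ Finset.range K, (-1:ℝ) ^ (k + 1) * x ^ (100 ^ (k + 1))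

/-- its derivative -/
noncomputable def gk' (K : ℕ) (x : ℝ) : ℝ :=
  ∑ k ∈ Finset.range K, (-1:ℝ) ^ (k + 1) * (((100 ^ (k + 1) : ℕ) : ℝ) * x ^ (100 ^ (k + 1) - 1))

lemma gk_deriv (K : ℕ) (x : ℝ) : HasDerivAt (gk K) (gk' K x) x := by
  unfold gk gk'
  exact HasDerivAt.fun_sum fun k _ => (hasDerivAt_pow _ x).const_mul _

lemma pow_anti {x : ℝ} (hx : x ∈ Icc (0:ℝ) 1) : Antitone fun k : ℕ => x ^ (100 ^ (k + 1)) := by
  intro i j hij
  exact pow_le_pow_of_le_one hx.1 hx.2 (Nat.pow_le_pow_right (by norm_num) (by omega))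

lemma gk_mem (K : ℕ) {x : ℝ} (hx : x ∈ Icc (0:ℝ) 1) : -1 ≤ gk K x ∧ gk K x ≤ 0 := by
  have h := alt_mem K _ (pow_anti hx) (fun k => pow_nonneg hx.1 _)
  have h1 : x ^ (100 ^ (0 + 1)) ≤ 1 := pow_le_one₀ hx.1 hx.2
  refine ⟨?_, h.2⟩
  have := h.1
  unfold gk
  linarith

/-- a mean value inequality for powers -/
lemma pow_gap {x : ℝ} (hx : x ∈ Icc (0:ℝ) 1) (M D : ℕ) :
    D * ((1 - x) * x ^ (M + D - 1)) ≤ x ^ M - x ^ (M + D) := by
  rcases Nat.eq_zero_or_pos D with rfl | hD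
  · simp
  have h1 : x ^ M - x ^ (M + D) = x ^ M * ((1 - x) * ∑ i ∈ Finset.range D, x ^ i) := by
    rw [mul_neg_geom_sum, pow_add]
    ring
  have h2 : (D:ℝ) * x ^ (D - 1) ≤ ∑ i ∈ Finset.range D, x ^ i := by
    calc (D:ℝ) * x ^ (D - 1) = ∑ _i ∈ Finset.range D, x ^ (D - 1) := by simp
      _ ≤ _ := Finset.sum_le_sum fun i hi =>
        pow_le_pow_of_le_one hx.1 hx.2 (by have := Finset.mem_range.1 hi; omega)
  rw [h1]
  have e : x ^ (M + D - 1) = x ^ M * x ^ (D - 1) := by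
    rw [← pow_add]; congr 1; omega
  rw [e]
  have h3 : 0 ≤ x ^ M * (1 - x) := mul_nonneg (pow_nonneg hx.1 _) (by linarith [hx.2])
  calc D * ((1 - x) * (x ^ M * x ^ (D - 1))) = (x ^ M * (1 - x)) * (D * x ^ (D - 1)) := by ring
    _ ≤ (x ^ M * (1 - x)) * ∑ i ∈ Finset.range D, x ^ i := mul_le_mul_of_nonneg_left h2 h3
    _ = _ := by ring

lemma tel (K : ℕ) {x : ℝ} (hx : x ∈ Icc (0:ℝ) 1) :
    ∑ k ∈ Finset.range K, ((100 ^ (k + 1) : ℕ) : ℝ) * ((1 - x) * x ^ (100 ^ (k + 1) - 1)) ≤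
      100 / 99 * (x - x ^ (100 ^ K)) := by
  induction K with
  | zero => simp
  | succ K ih =>
    rw [Finset.sum_range_succ]
    have h1 := pow_gap hx (100 ^ K) (99 * 100 ^ K)
    have e : 100 ^ K + 99 * 100 ^ K = 100 ^ (K + 1) := by ring
    rw [e] at h1
    push_cast at h1 ih ⊢
    have h2 : (100:ℝ) ^ (K + 1) * ((1 - x) * x ^ (100 ^ (K + 1) - 1)) =
        100 / 99 * (99 * 100 ^ K * ((1 - x) * x ^ (100 ^ (K + 1) - 1))) := by
      ring
    rw [h2]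
    linarith

lemma gk'_le (K : ℕ) {x : ℝ} (hx : x ∈ Icc (0:ℝ) 1) : |(1 - x) * gk' K x| ≤ 100 / 99 := by
  unfold gk'
  rw [Finset.mul_sum]
  refine (Finset.abs_sum_le_sum_abs _ _).trans ?_
  have h1 := tel K hx
  have h2 : ∀ k ∈ Finset.range K, |(1 - x) * ((-1:ℝ) ^ (k + 1) *
      (((100 ^ (k + 1) : ℕ) : ℝ) * x ^ (100 ^ (k + 1) - 1)))| =
      ((100 ^ (k + 1) : ℕ) : ℝ) * ((1 - x) * x ^ (100 ^ (k + 1) - 1)) := by
    intro k _
    have h3 : (0:ℝ) ≤ ((100 ^ (k + 1) : ℕ) : ℝ) * ((1 - x) * x ^ (100 ^ (k + 1) - 1)) :=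
      mul_nonneg (Nat.cast_nonneg _) (mul_nonneg (by linarith [hx.2]) (pow_nonneg hx.1 _))
    have h4 : (1 - x) * ((-1:ℝ) ^ (k + 1) *
      (((100 ^ (k + 1) : ℕ) : ℝ) * x ^ (100 ^ (k + 1) - 1))) = (-1:ℝ) ^ (k + 1) *
      (((100 ^ (k + 1) : ℕ) : ℝ) * ((1 - x) * x ^ (100 ^ (k + 1) - 1))) := by ring
    rw [h4, abs_mul, abs_pow, abs_neg, abs_one, one_pow, one_mul, abs_of_nonneg h3]
  rw [Finset.sum_congr rfl h2]
  refine h1.trans ?_
  have h5 : 0 ≤ x ^ (100 ^ K) := pow_nonneg hx.1 _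
  nlinarith [hx.2]

/-- the sample points -/
noncomputable def uj (j : ℕ) : ℝ := 1 / 10 * (1 / 100) ^ j

lemma uj_pos (j : ℕ) : 0 < uj j := by unfold uj; positivity

lemma uj_le (j : ℕ) : uj j ≤ 1 / 10 := by
  unfold uj
  have : (1 / 100 : ℝ) ^ j ≤ 1 := pow_le_one₀ (by norm_num) (by norm_num)
  linarith

lemma uj_anti {i j : ℕ} (h : i ≤ j) : uj j ≤ uj i := by
  unfold uj
  have : (1 / 100 : ℝ) ^ j ≤ (1 / 100) ^ i := pow_le_pow_of_le_one (by norm_num) (by norm_num) h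
  linarith

lemma pow_mul_uj (j : ℕ) : (100:ℝ) ^ j * uj j = 1 / 10 := by
  unfold uj
  have : (100:ℝ) ^ j * (1 / 100) ^ j = 1 := by rw [← mul_pow]; norm_num
  linear_combination (1 / 10) * this

lemma sum_sign (j : ℕ) : ∑ k ∈ Finset.range j, (-1:ℝ) ^ (k + 1) = if Even j then 0 else -1 := by
  induction j with
  | zero => simp
  | succ j ih =>
    rw [Finset.sum_range_succ, ih]
    by_cases h : Even j
    · have h2 : ¬ Even (j + 1) := by simpa [Nat.even_add_one] using h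
      have h3 : (-1:ℝ) ^ (j + 1) = -1 := (Nat.not_even_iff_odd.1 h2).neg_one_pow
      rw [if_pos h, if_neg h2, h3]
      norm_num
    · have h2 : Even (j + 1) := Nat.even_add_one.2 h
      have h3 : (-1:ℝ) ^ (j + 1) = 1 := h2.neg_one_pow
      rw [if_neg h, if_pos h2, h3]
      norm_num

lemma geo_sum (j : ℕ) : ∑ k ∈ Finset.range j, (100:ℝ) ^ (k + 1) ≤ 100 / 99 * 100 ^ j := by
  induction j with
  | zero => norm_num
  | succ j ih =>
    rw [Finset.sum_range_succ]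
    have : (100:ℝ) ^ (j + 1) = 100 * 100 ^ j := by ring
    linarith

/-- the values at the sample points -/
lemma gk_uj {K j : ℕ} (hj : j ≤ K) :
    |gk K (1 - uj j) - (if Even j then 0 else -1)| ≤ 1 / 5 := by
  obtain ⟨x, hx⟩ : ∃ x, x = 1 - uj j := ⟨_, rfl⟩
  have hu0 := uj_pos j
  have hu1 := uj_le j
  have hxm : x ∈ Icc (0:ℝ) 1 := ⟨by linarith, by linarith⟩
  rw [← hx]
  unfold gk
  obtain ⟨L, rfl⟩ := Nat.exists_eq_add_of_le hj
  rw [Finset.sum_range_add]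
  -- the second part
  have h2 : |∑ i ∈ Finset.range L, (-1:ℝ) ^ (j + i + 1) * x ^ (100 ^ (j + i + 1))| ≤ 1 / 11 := by
    have e : ∑ i ∈ Finset.range L, (-1:ℝ) ^ (j + i + 1) * x ^ (100 ^ (j + i + 1)) =
        (-1:ℝ) ^ j * ∑ i ∈ Finset.range L, (-1:ℝ) ^ (i + 1) * x ^ (100 ^ (j + i + 1)) := by
      rw [Finset.mul_sum]
      refine Finset.sum_congr rfl fun i _ => ?_
      rw [add_assoc j i 1, pow_add (-1:ℝ) j]
      ring
    rw [e, abs_mul, abs_pow, abs_neg, abs_one, one_pow, one_mul]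
    have h3 := alt_mem L (fun i => x ^ (100 ^ (j + i + 1)))
      (fun a b hab => pow_le_pow_of_le_one hxm.1 hxm.2
        (Nat.pow_le_pow_right (by norm_num) (by omega))) (fun k => pow_nonneg hxm.1 _)
    have h4 : x ^ (100 ^ (j + 0 + 1)) ≤ 1 / 11 := by
      have h5 : 1 + ((100 ^ (j + 0 + 1) : ℕ) : ℝ) * uj j ≤ (1 + uj j) ^ (100 ^ (j + 0 + 1)) :=
        one_add_mul_le_pow (by linarith) _
      have h6 : ((100 ^ (j + 0 + 1) : ℕ) : ℝ) * uj j = 10 := by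
        push_cast
        have := pow_mul_uj j
        rw [add_zero, pow_succ]
        linear_combination 100 * this
      have h7 : x ^ (100 ^ (j + 0 + 1)) * (1 + uj j) ^ (100 ^ (j + 0 + 1)) ≤ 1 := by
        rw [← mul_pow]
        refine pow_le_one₀ (mul_nonneg hxm.1 (by linarith)) ?_
        rw [hx]
        nlinarith
      have h8 : 0 ≤ x ^ (100 ^ (j + 0 + 1)) := pow_nonneg hxm.1 _
      rw [h6] at h5
      nlinarith
    have h5 := h3.1
    have h6 := h3.2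
    beta_reduce at h5 h6
    rw [abs_le]
    constructor <;> linarith
  -- the first part
  have h1 : |∑ k ∈ Finset.range j, (-1:ℝ) ^ (k + 1) * x ^ (100 ^ (k + 1)) -
      (if Even j then 0 else -1)| ≤ 10 / 99 := by
    rw [← sum_sign, ← Finset.sum_sub_distrib]
    refine (Finset.abs_sum_le_sum_abs _ _).trans ?_
    have h3 : ∀ k ∈ Finset.range j, |(-1:ℝ) ^ (k + 1) * x ^ (100 ^ (k + 1)) - (-1:ℝ) ^ (k + 1)| ≤
        100 ^ (k + 1) * uj j := by
      intro k _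
      have e : (-1:ℝ) ^ (k + 1) * x ^ (100 ^ (k + 1)) - (-1:ℝ) ^ (k + 1) =
          (-1:ℝ) ^ (k + 1) * (x ^ (100 ^ (k + 1)) - 1) := by ring
      rw [e, abs_mul, abs_pow, abs_neg, abs_one, one_pow, one_mul]
      have h4 : 1 + ((100 ^ (k + 1) : ℕ) : ℝ) * (-uj j) ≤ (1 + (-uj j)) ^ (100 ^ (k + 1)) :=
        one_add_mul_le_pow (by linarith) _
      have h5 : (1 + (-uj j)) = x := by rw [hx]; ring
      rw [h5] at h4
      push_cast at h4
      have h6 : x ^ (100 ^ (k + 1)) ≤ 1 := pow_le_one₀ hxm.1 hxm.2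
      rw [abs_le]
      constructor
      · linarith
      · have : 0 ≤ (100:ℝ) ^ (k + 1) * uj j := by positivity
        linarith
    refine (Finset.sum_le_sum h3).trans ?_
    rw [← Finset.sum_mul]
    have h7 := mul_le_mul_of_nonneg_right (geo_sum j) hu0.le
    have h8 := pow_mul_uj j
    nlinarith
  have e : ∀ a b c : ℝ, |a + b - c| ≤ |a - c| + |b| := by
    intro a b c
    have : a + b - c = (a - c) + b := by ring
    rw [this]
    exact abs_add_le _ _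
  refine (e _ _ _).trans ?_
  linarith

/-- the scalar function -/
noncomputable def hh (K : ℕ) (ρ : ℝ) : ℝ := 1 / 5 * gk K (1 - ρ / 4)

lemma hh_deriv (K : ℕ) (ρ : ℝ) : HasDerivAt (hh K) (-(1 / 20) * gk' K (1 - ρ / 4)) ρ := by
  unfold hh
  have h1 : HasDerivAt (fun ρ : ℝ => 1 - ρ / 4) (-(1 / 4)) ρ := by
    have := ((hasDerivAt_id ρ).div_const 4).const_sub 1
    simpa using this
  have h2 := ((gk_deriv K (1 - ρ / 4)).comp ρ h1).const_mul (1 / 5)
  refine h2.congr_deriv ?_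
  ring

/-- the polynomial -/
noncomputable def HP (K : ℕ) : MvPolynomial (Fin 2) ℝ :=
  MvPolynomial.C (1 / 5) * ∑ k ∈ Finset.range K, MvPolynomial.C ((-1:ℝ) ^ (k + 1)) *
    (1 - MvPolynomial.C (1 / 4) * (MvPolynomial.X 0 ^ 2 + MvPolynomial.X 1 ^ 2)) ^ (100 ^ (k + 1))

/-- first component -/
noncomputable def FP (K : ℕ) : MvPolynomial (Fin 2) ℝ :=
  - MvPolynomial.X 1 + MvPolynomial.X 0 * HP K

/-- second component -/
noncomputable def GP (K : ℕ) : MvPolynomial (Fin 2) ℝ :=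
  MvPolynomial.X 0 + MvPolynomial.X 1 * HP K

lemma val_HP (K : ℕ) (p : ℝ × ℝ) : val (HP K) p = hh K (p.1 ^ 2 + p.2 ^ 2) := by
  unfold val HP hh gk
  rw [map_mul, MvPolynomial.eval_C, map_sum]
  congr 1
  refine Finset.sum_congr rfl fun k _ => ?_
  rw [map_mul, MvPolynomial.eval_C, map_pow]
  congr 2
  simp
  ring

lemma val_FP (K : ℕ) : val (FP K) = fun p => -p.2 + p.1 * hh K (p.1 ^ 2 + p.2 ^ 2) := by
  funext p
  rw [← val_HP]
  simp [val, FP]

lemma val_GP (K : ℕ) : val (GP K) = fun p => p.1 + p.2 * hh K (p.1 ^ 2 + p.2 ^ 2) := by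
  funext p
  rw [← val_HP]
  simp [val, GP]

lemma HP_deg (K : ℕ) : (HP K).totalDegree ≤ 2 * 100 ^ K := by
  unfold HP
  refine (MvPolynomial.totalDegree_mul _ _).trans ?_
  rw [MvPolynomial.totalDegree_C, zero_add]
  refine (MvPolynomial.totalDegree_finset_sum _ _).trans ?_
  refine Finset.sup_le fun k hk => ?_
  refine (MvPolynomial.totalDegree_mul _ _).trans ?_
  rw [MvPolynomial.totalDegree_C, zero_add]
  refine (MvPolynomial.totalDegree_pow _ _).trans ?_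
  have h1 : (1 - MvPolynomial.C (1 / 4 : ℝ) * (MvPolynomial.X 0 ^ 2 + MvPolynomial.X 1 ^ 2) :
      MvPolynomial (Fin 2) ℝ).totalDegree ≤ 2 := by
    refine (MvPolynomial.totalDegree_sub _ _).trans (max_le (by simp) ?_)
    refine (MvPolynomial.totalDegree_mul _ _).trans ?_
    rw [MvPolynomial.totalDegree_C, zero_add]
    refine (MvPolynomial.totalDegree_add _ _).trans (max_le ?_ ?_) <;>
    · refine (MvPolynomial.totalDegree_pow _ _).trans ?_
      rw [MvPolynomial.totalDegree_X]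
  have h2 : 100 ^ (k + 1) ≤ 100 ^ K :=
    Nat.pow_le_pow_right (by norm_num) (Finset.mem_range.1 hk)
  calc 100 ^ (k + 1) * _ ≤ 100 ^ K * 2 := Nat.mul_le_mul h2 h1
    _ = _ := mul_comm _ _

lemma FP_deg (K : ℕ) : (FP K).totalDegree ≤ 3 * 100 ^ K := by
  have h1 : 1 ≤ 100 ^ K := Nat.one_le_pow _ _ (by norm_num)
  unfold FP
  refine (MvPolynomial.totalDegree_add _ _).trans (max_le ?_ ?_)
  · rw [MvPolynomial.totalDegree_neg, MvPolynomial.totalDegree_X]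
    omega
  · refine (MvPolynomial.totalDegree_mul _ _).trans ?_
    rw [MvPolynomial.totalDegree_X]
    have := HP_deg K
    omega

lemma GP_deg (K : ℕ) : (GP K).totalDegree ≤ 3 * 100 ^ K := by
  have h1 : 1 ≤ 100 ^ K := Nat.one_le_pow _ _ (by norm_num)
  unfold GP
  refine (MvPolynomial.totalDegree_add _ _).trans (max_le ?_ ?_)
  · rw [MvPolynomial.totalDegree_X]
    omega
  · refine (MvPolynomial.totalDegree_mul _ _).trans ?_
    rw [MvPolynomial.totalDegree_X]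
    have := HP_deg K
    omega

lemma dv_FG (K : ℕ) (p : ℝ × ℝ) : dv (val (FP K)) (val (GP K)) p =
    2 * hh K (p.1 ^ 2 + p.2 ^ 2) +
      2 * (p.1 ^ 2 + p.2 ^ 2) * (-(1 / 20) * gk' K (1 - (p.1 ^ 2 + p.2 ^ 2) / 4)) := by
  obtain ⟨d, hd⟩ : ∃ d, d = -(1 / 20) * gk' K (1 - (p.1 ^ 2 + p.2 ^ 2) / 4) := ⟨_, rfl⟩
  have hh' := hh_deriv K (p.1 ^ 2 + p.2 ^ 2)
  rw [← hd] at hh' ⊢
  have hx : HasFDerivAt (fun p : ℝ × ℝ => p.1) (ContinuousLinearMap.fst ℝ ℝ ℝ) p := hasFDerivAt_fst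
  have hy : HasFDerivAt (fun p : ℝ × ℝ => p.2) (ContinuousLinearMap.snd ℝ ℝ ℝ) p := hasFDerivAt_snd
  have h1 : HasFDerivAt (fun p : ℝ × ℝ => p.1 ^ 2 + p.2 ^ 2)
      ((2 * p.1) • ContinuousLinearMap.fst ℝ ℝ ℝ + (2 * p.2) • ContinuousLinearMap.snd ℝ ℝ ℝ) p := by
    refine ((hx.pow 2).add (hy.pow 2)).congr_fderiv ?_
    ext <;> simp
  have h2 : HasFDerivAt (fun p : ℝ × ℝ => hh K (p.1 ^ 2 + p.2 ^ 2))
      (d • ((2 * p.1) • ContinuousLinearMap.fst ℝ ℝ ℝ +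
        (2 * p.2) • ContinuousLinearMap.snd ℝ ℝ ℝ)) p :=
    HasDerivAt.comp_hasFDerivAt (h₂ := hh K) p hh' h1
  unfold dv
  rw [val_FP, val_GP]
  have e1 : fderiv ℝ (fun p : ℝ × ℝ => -p.2 + p.1 * hh K (p.1 ^ 2 + p.2 ^ 2)) p = _ :=
    (hy.neg.add (hx.mul h2)).fderiv
  have e2 : fderiv ℝ (fun p : ℝ × ℝ => p.1 + p.2 * hh K (p.1 ^ 2 + p.2 ^ 2)) p = _ :=
    (hx.add (hy.mul h2)).fderiv
  rw [e1, e2]
  simp
  ring

lemma xmem {p : ℝ × ℝ} (hp : p.1 ^ 2 + p.2 ^ 2 ≤ (2 * 1) ^ 2) :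
    1 - (p.1 ^ 2 + p.2 ^ 2) / 4 ∈ Icc (0:ℝ) 1 := by
  constructor
  · linarith
  · have : 0 ≤ p.1 ^ 2 + p.2 ^ 2 := by positivity
    linarith

lemma dv_FG_mem (K : ℕ) {p : ℝ × ℝ} (hp : p.1 ^ 2 + p.2 ^ 2 ≤ (2 * 1) ^ 2) :
    -1 ≤ dv (val (FP K)) (val (GP K)) p ∧ dv (val (FP K)) (val (GP K)) p ≤ 1 := by
  rw [dv_FG]
  have h1 := gk_mem K (xmem hp)
  have h2 := abs_le.1 (gk'_le K (xmem hp))
  unfold hh
  constructor
  · nlinarith [h1.1, h2.1, h2.2]
  · nlinarith [h1.2, h2.1, h2.2]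

lemma ang_FG (K : ℕ) (p : ℝ × ℝ) : ang (val (FP K)) (val (GP K)) p = p.1 ^ 2 + p.2 ^ 2 := by
  unfold ang
  rw [val_FP, val_GP]
  ring

lemma rad_FG (K : ℕ) (p : ℝ × ℝ) : rad (val (FP K)) (val (GP K)) p =
    (p.1 ^ 2 + p.2 ^ 2) * hh K (p.1 ^ 2 + p.2 ^ 2) := by
  unfold rad
  rw [val_FP, val_GP]
  ring

lemma hyp_FG (K : ℕ) : Hyp (val (FP K)) (val (GP K)) (pd 1) where
  cf := val_contDiff _
  cg := val_contDiff _
  ord := fun t => by rw [reg_pd one_pos]; exact ordConnected_Iic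
  pos := fun p hp => by rw [ang_FG]; exact hp.1

lemma slope_FG (K : ℕ) : ∀ s ∈ Icc (-1:ℝ) 1, ∀ p ∈ pd 1,
    |rad (val (FP K)) (val (GP K)) p - s / 2 * (p.1 ^ 2 + p.2 ^ 2)| ≤
      1 * ang (val (FP K)) (val (GP K)) p := by
  intro s hs p hp
  have hp' : p.1 ^ 2 + p.2 ^ 2 ≤ (2 * 1) ^ 2 := hp.2.trans (by norm_num)
  have h1 := gk_mem K (xmem hp')
  have h0 := hp.1
  rw [rad_FG, ang_FG]
  have e : (p.1 ^ 2 + p.2 ^ 2) * hh K (p.1 ^ 2 + p.2 ^ 2) - s / 2 * (p.1 ^ 2 + p.2 ^ 2) =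
      (hh K (p.1 ^ 2 + p.2 ^ 2) - s / 2) * (p.1 ^ 2 + p.2 ^ 2) := by ring
  rw [e, abs_mul, abs_of_pos h0]
  refine mul_le_mul_of_nonneg_right ?_ h0.le
  unfold hh
  rw [abs_le]
  constructor
  · linarith [h1.1, h1.2, hs.1, hs.2]
  · linarith [h1.1, h1.2, hs.1, hs.2]

/-- circles -/
noncomputable def circ (ρ : ℝ) (t : ℝ) : ℝ × ℝ :=
  (Real.sqrt ρ * Real.cos t, Real.sqrt ρ * Real.sin t)

lemma circ_sq {ρ : ℝ} (hρ : 0 ≤ ρ) (t : ℝ) : (circ ρ t).1 ^ 2 + (circ ρ t).2 ^ 2 = ρ := by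
  unfold circ
  have h1 := Real.sq_sqrt hρ
  have h2 := Real.sin_sq_add_cos_sq t
  simp only
  linear_combination (Real.sqrt ρ ^ 2) * h2 + h1

lemma circ_orbit {K : ℕ} {s ρ : ℝ} (h0 : 0 < ρ) (h1 : ρ ≤ 1) (hs : hh K ρ = s / 2) :
    range (circ ρ) ∈ closedOrbitsIn (fam (val (FP K)) (val (GP K)) s) (pd 1) := by
  refine ⟨⟨circ ρ, 2 * Real.pi, Real.two_pi_pos, fun t => ?_, fun t => ?_, ⟨0, Real.pi, ?_⟩, rfl⟩, ?_⟩
  · have e := circ_sq h0.le t
    have e2 : fam (val (FP K)) (val (GP K)) s (circ ρ t) = (-(circ ρ t).2, (circ ρ t).1) := by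
      unfold fam
      rw [val_FP, val_GP]
      beta_reduce
      rw [e, hs]
      ext <;> simp <;> ring
    rw [e2]
    refine HasDerivAt.prodMk ?_ ?_
    · refine ((Real.hasDerivAt_cos t).const_mul _).congr_deriv ?_
      simp [circ]
    · exact (Real.hasDerivAt_sin t).const_mul _
  · unfold circ
    rw [Real.cos_add_two_pi, Real.sin_add_two_pi]
  · intro h
    have h2 := congrArg Prod.fst h
    simp only [circ, Real.cos_zero, Real.cos_pi] at h2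
    have := Real.sqrt_pos.2 h0
    linarith
  · rintro _ ⟨t, rfl⟩
    refine ⟨?_, ?_⟩
    · rw [circ_sq h0.le]; exact h0
    · rw [circ_sq h0.le]; simpa using h1

lemma circ_inj {ρ ρ' : ℝ} (h0 : 0 ≤ ρ) (h0' : 0 ≤ ρ') (h : range (circ ρ) = range (circ ρ')) :
    ρ = ρ' := by
  have h1 : circ ρ 0 ∈ range (circ ρ') := h ▸ ⟨0, rfl⟩
  obtain ⟨t, ht⟩ := h1
  rw [← circ_sq h0 0, ← ht, circ_sq h0' t]

/-- the roots -/
lemma root {K j : ℕ} (hj : j < K) {s : ℝ} (hs : s ∈ Icc (-(3/10):ℝ) (-(1/10))) :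
    ∃ ρ ∈ Ioo (4 * uj (j + 1)) (4 * uj j), hh K ρ = s / 2 := by
  have hcont : Continuous (hh K) := continuous_iff_continuousAt.2 fun x => (hh_deriv K x).continuousAt
  have hle : 4 * uj (j + 1) ≤ 4 * uj j := by linarith [uj_anti (Nat.le_succ j)]
  have e : ∀ i, hh K (4 * uj i) = 1 / 5 * gk K (1 - uj i) := by
    intro i
    unfold hh
    congr 3
    ring
  have ha := gk_uj (K := K) (j := j) hj.le
  have hb := gk_uj (K := K) (j := j + 1) hj
  rw [abs_le] at ha hb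
  by_cases h : Even j
  · have h2 : ¬ Even (j + 1) := by simpa [Nat.even_add_one] using h
    rw [if_pos h] at ha
    rw [if_neg h2] at hb
    have := intermediate_value_Ioo hle (hcont.continuousOn (s := Icc _ _))
    have hm : s / 2 ∈ Ioo (hh K (4 * uj (j + 1))) (hh K (4 * uj j)) := by
      rw [e, e]
      constructor
      · linarith [hb.2, hs.1]
      · linarith [ha.1, hs.2]
    obtain ⟨ρ, h3, h4⟩ := this hm
    exact ⟨ρ, h3, h4⟩
  · have h2 : Even (j + 1) := Nat.even_add_one.2 h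
    rw [if_neg h] at ha
    rw [if_pos h2] at hb
    have := intermediate_value_Ioo' hle (hcont.continuousOn (s := Icc _ _))
    have hm : s / 2 ∈ Ioo (hh K (4 * uj j)) (hh K (4 * uj (j + 1))) := by
      rw [e, e]
      constructor
      · linarith [ha.2, hs.1]
      · linarith [hb.1, hs.2]
    obtain ⟨ρ, h3, h4⟩ := this hm
    exact ⟨ρ, h3, h4⟩

/-- at least `K` closed orbits, for every parameter in an interval -/
theorem many {K : ℕ} {s : ℝ} (hs : s ∈ Icc (-(3/10):ℝ) (-(1/10))) :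
    (K : ℕ∞) ≤ (closedOrbitsIn (fam (val (FP K)) (val (GP K)) s) (pd 1)).encard := by
  have hex : ∀ j : Fin K, ∃ ρ ∈ Ioo (4 * uj (j + 1)) (4 * uj j), hh K ρ = s / 2 :=
    fun j => root j.2 hs
  choose ρ hρ hρs using hex
  have hpos : ∀ j, 0 < ρ j := fun j => by
    have := uj_pos (j + 1)
    linarith [(hρ j).1]
  have hinj : Function.Injective fun j => range (circ (ρ j)) := by
    intro i j hij
    have h1 := circ_inj (hpos i).le (hpos j).le hij
    by_contra hne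
    rcases lt_or_gt_of_ne (fun h => hne (Fin.ext h) : (i:ℕ) ≠ j) with h | h
    · have h2 := uj_anti (show (i:ℕ) + 1 ≤ j by omega)
      linarith [(hρ i).1, (hρ j).2]
    · have h2 := uj_anti (show (j:ℕ) + 1 ≤ i by omega)
      linarith [(hρ j).1, (hρ i).2]
  have h2 : (range fun j => range (circ (ρ j))).encard = (K : ℕ∞) := by
    rw [← Set.image_univ, hinj.encard_image]
    simp
  rw [← h2]
  refine Set.encard_le_encard ?_
  rintro _ ⟨j, rfl⟩
  refine circ_orbit (hpos j) ?_ (hρs j)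
  have h3 := uj_le j
  linarith [(hρ j).2]

/-- **logarithmically many closed orbits for a whole interval of parameters** -/
theorem sharp {n : ℕ} (hn : 300 ≤ n) :
    ∃ F G : MvPolynomial (Fin 2) ℝ, F.totalDegree ≤ n ∧ G.totalDegree ≤ n ∧
      (∀ p ∈ pd 1, 0 < ang (val F) (val G) p) ∧
      (∀ p : ℝ × ℝ, p.1 ^ 2 + p.2 ^ 2 ≤ (2 * 1) ^ 2 →
        -1 ≤ dv (val F) (val G) p ∧ dv (val F) (val G) p ≤ 1) ∧
      (∀ s ∈ Icc (-1:ℝ) 1, ∀ p ∈ pd 1, |rad (val F) (val G) p - s / 2 * (p.1 ^ 2 + p.2 ^ 2)| ≤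
        1 * ang (val F) (val G) p) ∧
      ∀ s ∈ Icc (-(3/10):ℝ) (-(1/10)), ENNReal.ofReal (Real.log n / 15) ≤
        ((closedOrbitsIn (fam (val F) (val G) s) (pd 1)).encard : ℝ≥0∞) := by
  set K := Nat.log 100 (n / 3) with hK
  have h3 : n / 3 ≠ 0 := by omega
  have h1 : 100 ^ K ≤ n / 3 := Nat.pow_log_le_self 100 h3
  have h2 : n / 3 < 100 ^ (K + 1) := Nat.lt_pow_succ_log_self (by norm_num) _
  have hK1 : 1 ≤ K := by
    rw [hK]
    exact Nat.log_pos (by norm_num) (by omega)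
  have hn3 : 3 * 100 ^ K ≤ n := by omega
  refine ⟨FP K, GP K, (FP_deg K).trans hn3, (GP_deg K).trans hn3, (hyp_FG K).pos,
    fun p hp => dv_FG_mem K hp, slope_FG K, fun s hs => ?_⟩
  refine le_trans ?_ (ENat.toENNReal_le.2 (many (K := K) hs))
  rw [ENat.toENNReal_coe]
  have h4 : Real.log n ≤ 15 * K := by
    have h5 : n < 100 ^ (K + 2) := by
      have : 100 ^ (K + 2) = 100 * 100 ^ (K + 1) := by ring
      omega
    have h6 : Real.log n ≤ Real.log ((100:ℝ) ^ (K + 2)) := by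
      refine Real.log_le_log (by exact_mod_cast (by omega : 0 < n)) ?_
      exact_mod_cast h5.le
    rw [Real.log_pow] at h6
    have h7 : Real.log 100 ≤ 5 := by
      rw [Real.log_le_iff_le_exp (by norm_num)]
      have h8 : Real.exp 5 = Real.exp 1 ^ 5 := by rw [← Real.exp_nat_mul]; norm_num
      rw [h8]
      have h9 : (2.7:ℝ) ≤ Real.exp 1 := by linarith [Real.exp_one_gt_d9]
      calc (100:ℝ) ≤ 2.7 ^ 5 := by norm_num
        _ ≤ _ := pow_le_pow_left₀ (by norm_num) h9 5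
    have hK1' : (1:ℝ) ≤ K := by exact_mod_cast hK1
    push_cast at h6
    nlinarith
  have h5 : Real.log n / 15 ≤ (K:ℝ) := by linarith
  calc ENNReal.ofReal (Real.log n / 15) ≤ ENNReal.ofReal (K:ℝ) := ENNReal.ofReal_le_ofReal h5
    _ = (K : ℝ≥0∞) := ENNReal.ofReal_natCast K

end Pool.Agent.Q62.HN
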